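import Pool.Agent.Q127.Surf.Regions

/-!
# The counting argument: a 4-cycle through vertices of degree four
-/

set_option autoImplicit false

namespace Q127.Surf

open SimpleGraph Module

variable {V : Type} {G : SimpleGraph V}

open Classical in
/-- Degree in the induced subgraph, counted by darts. -/
noncomputable def degX [Fintype V] (G : SimpleGraph V) (X : Finset V) (v : V) : ℕ :=
  (Finset.univ.filter fun d : G.Dart => d ∈ dartsIn G X ∧ d.fst = v).card

open Classical in
theorem sum_degX [Fintype V] (X : Finset V) :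
    ∑ v ∈ X, degX G X v = (dartsIn G X).ncard := by
  have h1 : (dartsIn G X).ncard = (Finset.univ.filter fun d : G.Dart => d ∈ dartsIn G X).card := by
    rw [← Set.ncard_coe_finset]
    congr 1
    ext d
    simp
  rw [h1, Finset.card_eq_sum_card_fiberwise (f := fun d : G.Dart => d.fst) (t := X)]
  · refine Finset.sum_congr rfl fun v _ => ?_
    unfold degX
    rw [Finset.filter_filter]
  · intro d hd
    rw [Finset.mem_coe, Finset.mem_filter] at hd
    exact hd.2.1

open Classical in
theorem two_le_card_spt_at [Fintype V] {z : G.Dart → F2} (hz : z ∈ cyc G) {d : G.Dart}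
    (hd : z d ≠ 0) : 2 ≤ ((spt z).filter fun e => e.fst = d.fst).card := by
  have h1 : div G z d.fst = 0 := by
    have := hz.2
    rw [SetLike.mem_coe, LinearMap.mem_ker] at this
    rw [this]
    rfl
  rw [div_apply] at h1
  have h2 : ∑ e ∈ Finset.univ.filter (fun e : G.Dart => e.fst = d.fst), z e
      = (((spt z).filter fun e => e.fst = d.fst).card : F2) := by
    rw [Finset.card_eq_sum_ones]
    push_cast
    rw [Finset.sum_filter, Finset.sum_filter]
    have h3 : spt z = Finset.univ.filter (fun e => z e ≠ 0) := rfl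
    rw [h3, Finset.sum_filter]
    refine Finset.sum_congr rfl fun e _ => ?_
    rcases f2_cases (z e) with h | h
    · rw [h]
      simp
    · rw [h]
      simp
  rw [h2] at h1
  have h3 : 0 < ((spt z).filter fun e => e.fst = d.fst).card :=
    Finset.card_pos.mpr ⟨d, Finset.mem_filter.mpr ⟨mem_spt.mpr hd, rfl⟩⟩
  by_contra hcon
  have h4 : ((spt z).filter fun e => e.fst = d.fst).card = 1 := by omega
  rw [h4] at h1
  exact absurd h1 (by decide)

theorem exists_other [Fintype V] {z : G.Dart → F2} (hz : z ∈ cyc G) {d : G.Dart}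
    (hd : z d ≠ 0) : ∃ e : G.Dart, z e ≠ 0 ∧ e.fst = d.fst ∧ e.snd ≠ d.snd := by
  classical
  have h1 := two_le_card_spt_at hz hd
  obtain ⟨e, he, hne⟩ := Finset.exists_mem_ne (Nat.lt_of_succ_le h1) d
  rw [Finset.mem_filter, mem_spt] at he
  refine ⟨e, he.1, he.2, fun h => hne ?_⟩
  ext
  · exact he.2
  · exact h

open Classical in
/-- Vertices of the support. -/
noncomputable def VZ [Fintype V] (z : G.Dart → F2) : Finset V := (spt z).image fun d => d.fst

theorem mem_VZ [Fintype V] {z : G.Dart → F2} {d : G.Dart} (hd : z d ≠ 0) : d.fst ∈ VZ z := by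
  classical
  exact Finset.mem_image_of_mem _ (mem_spt.mpr hd)

open Classical in
theorem two_mul_card_VZ [Fintype V] {z : G.Dart → F2} (hz : z ∈ cyc G) :
    2 * (VZ z).card ≤ (spt z).card := by
  have h1 : (spt z).card = ∑ v ∈ VZ z, ((spt z).filter fun e => e.fst = v).card :=
    Finset.card_eq_sum_card_image _ _
  rw [h1, mul_comm, ← smul_eq_mul]
  refine Finset.card_nsmul_le_sum _ _ _ ?_
  intro v hv
  obtain ⟨d, hd, rfl⟩ := Finset.mem_image.mp hv
  exact two_le_card_spt_at hz (mem_spt.mp hd)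

theorem structure_lemma [Fintype V] (htri : ∀ a b c, G.Adj a b → G.Adj b c → ¬ G.Adj c a)
    {z : G.Dart → F2} (hz : z ∈ cyc G) (h0 : z ≠ 0) :
    8 ≤ (spt z).card ∧ ((spt z).card < 10 → ∃ u v x w, G.Adj u v ∧ G.Adj v x ∧ G.Adj x w ∧
      G.Adj w u ∧ u ≠ x ∧ v ≠ w ∧ u ∈ VZ z ∧ v ∈ VZ z ∧ x ∈ VZ z ∧ w ∈ VZ z) := by
  classical
  have hsym := hz.1
  obtain ⟨d0, hd0⟩ : ∃ d, z d ≠ 0 := by
    by_contra hcon
    push Not at hcon
    exact h0 (funext hcon)
  have hd0s : z d0.symm ≠ 0 := by
    rw [hsym d0]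
    exact hd0
  obtain ⟨d1, hd1, hd1f, hd1s⟩ := exists_other hz hd0s
  obtain ⟨d2, hd2, hd2f, hd2s⟩ := exists_other hz hd0
  have hd1' : z d1.symm ≠ 0 := by
    rw [hsym d1]
    exact hd1
  have hd2' : z d2.symm ≠ 0 := by
    rw [hsym d2]
    exact hd2
  -- vertices
  have huv : G.Adj d0.fst d0.snd := d0.adj
  have hvx : G.Adj d0.snd d1.snd := by
    have := d1.adj
    rw [hd1f] at this
    exact this
  have huw : G.Adj d0.fst d2.snd := by
    have := d2.adj
    rw [hd2f] at this
    exact this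
  have hxu : d1.snd ≠ d0.fst := hd1s
  have hwv : d2.snd ≠ d0.snd := hd2s
  have hxw : d1.snd ≠ d2.snd := by
    intro h
    exact htri _ _ _ huv hvx (by rw [h]; exact huw.symm)
  have mu : d0.fst ∈ VZ z := mem_VZ hd0
  have mv : d0.snd ∈ VZ z := mem_VZ hd0s
  have mx : d1.snd ∈ VZ z := mem_VZ hd1'
  have mw : d2.snd ∈ VZ z := mem_VZ hd2'
  have hsub : ({d0.fst, d0.snd, d1.snd, d2.snd} : Finset V) ⊆ VZ z := by
    intro y hy
    simp only [Finset.mem_insert, Finset.mem_singleton] at hy
    rcases hy with rfl | rfl | rfl | rfl <;> assumption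
  have hcard4 : ({d0.fst, d0.snd, d1.snd, d2.snd} : Finset V).card = 4 := by
    rw [Finset.card_insert_of_notMem, Finset.card_insert_of_notMem,
      Finset.card_insert_of_notMem, Finset.card_singleton]
    · rw [Finset.mem_singleton]
      exact hxw
    · simp only [Finset.mem_insert, Finset.mem_singleton, not_or]
      exact ⟨hvx.ne, hwv.symm⟩
    · simp only [Finset.mem_insert, Finset.mem_singleton, not_or]
      exact ⟨huv.ne, hxu.symm, huw.ne⟩
  have h4 := Finset.card_le_card hsub
  have h5 := two_mul_card_VZ hz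
  refine ⟨by omega, fun hlt => ?_⟩
  have heq : ({d0.fst, d0.snd, d1.snd, d2.snd} : Finset V) = VZ z :=
    Finset.eq_of_subset_of_card_le hsub (by omega)
  obtain ⟨d3, hd3, hd3f, hd3s⟩ := exists_other hz hd2'
  have hd3' : z d3.symm ≠ 0 := by
    rw [hsym d3]
    exact hd3
  have hwy : G.Adj d2.snd d3.snd := by
    have := d3.adj
    rw [hd3f] at this
    exact this
  have my : d3.snd ∈ VZ z := mem_VZ hd3'
  rw [← heq] at my
  simp only [Finset.mem_insert, Finset.mem_singleton] at my
  have hyu : d3.snd ≠ d0.fst := by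
    intro h
    apply hd3s
    rw [h, ← hd2f]
    rfl
  rcases my with h | h | h | h
  · exact absurd h hyu
  · exfalso
    rw [h] at hwy
    exact htri _ _ _ huv hwy.symm huw.symm
  · rw [h] at hwy
    exact ⟨d0.fst, d0.snd, d1.snd, d2.snd, huv, hvx, hwy.symm, huw.symm, hxu.symm, hwv.symm,
      mu, mv, mx, mw⟩
  · exfalso
    rw [h] at hwy
    exact hwy.ne rfl

open Classical in
theorem card_reg_through [Fintype V] {σ : Equiv.Perm G.Dart} (hσ : IsRotation G σ)
    (X : Finset V) (v : V) :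
    ((reg1 σ X).filter fun R => v ∈ VZ (zR σ X R)).card ≤ 2 * degX G X v := by
  have h1 : ((reg1 σ X).filter fun R => v ∈ VZ (zR σ X R)) ⊆
      (Finset.univ.filter fun d : G.Dart => d ∈ dartsIn G X ∧ d.fst = v).biUnion
        (fun d => (reg1 σ X).filter fun R => zR σ X R d ≠ 0) := by
    intro R hR
    rw [Finset.mem_filter] at hR
    obtain ⟨d, hd, hdv⟩ := Finset.mem_image.mp hR.2
    rw [mem_spt] at hd
    rw [Finset.mem_biUnion]
    refine ⟨d, Finset.mem_filter.mpr ⟨Finset.mem_univ _, ?_, hdv⟩,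
      Finset.mem_filter.mpr ⟨hR.1, hd⟩⟩
    by_contra hcon
    exact hd ((zR_mem_cycX hσ X R).2 d hcon)
  refine (Finset.card_le_card h1).trans (Finset.card_biUnion_le.trans ?_)
  refine (Finset.sum_le_sum fun d _ => card_reg_at σ X d).trans ?_
  rw [Finset.sum_const, smul_eq_mul, mul_comm]
  exact le_rfl

open Classical in
theorem exists_good [Fintype V] {σ : Equiv.Perm G.Dart} (hσ : IsRotation G σ) (g : ℕ)
    (hg : GenusAtMost G σ g) (htri : ∀ a b c, G.Adj a b → G.Adj b c → ¬ G.Adj c a)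
    (X : Finset V) (hX : X.Nonempty) (hdeg : ∀ v ∈ X, 4 ≤ degX G X v)
    (hsmall : X.card < 82 * g + 4 → cycX G X ≤ bou σ) :
    ∃ u v x w, G.Adj u v ∧ G.Adj v x ∧ G.Adj x w ∧ G.Adj w u ∧ u ≠ x ∧ v ≠ w ∧
      u ∈ X ∧ v ∈ X ∧ x ∈ X ∧ w ∈ X ∧ degX G X u = 4 ∧ degX G X v = 4 ∧ degX G X x = 4 ∧
      degX G X w = 4 := by
  have hsum := sum_degX (G := G) X
  have hD : 4 * X.card ≤ (dartsIn G X).ncard := by
    rw [← hsum, mul_comm, ← smul_eq_mul]
    exact Finset.card_nsmul_le_sum _ _ _ hdeg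
  have hc := finrank_cycX_ge (G := G) X hX
  have hS := sum_card_spt hσ X
  have hstr : ∀ R ∈ reg1 σ X, 8 ≤ (spt (zR σ X R)).card := by
    intro R hR
    exact (structure_lemma htri (zR_mem_cycX hσ X R).1 (Finset.mem_filter.mp hR).2).1
  have hn : 0 < X.card := Finset.card_pos.mpr hX
  have h8 : 8 * (reg1 σ X).card ≤ ∑ R ∈ reg1 σ X, (spt (zR σ X R)).card := by
    rw [mul_comm, ← smul_eq_mul]
    exact Finset.card_nsmul_le_sum _ _ _ hstr
  rcases Nat.lt_or_ge X.card (82 * g + 4) with hlt | hge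
  · -- small case: impossible
    exfalso
    have h1 : (cycX G X ⊓ bou σ : Submodule F2 (G.Dart → F2)) = cycX G X :=
      inf_eq_left.mpr (hsmall hlt)
    have h2 := finrank_inf_lt (σ := σ) X
    rw [h1] at h2
    have h3 := h2 (by omega)
    omega
  · have h1 := finrank_inf_ge hσ g hg X
    have h2 := finrank_inf_lt (σ := σ) X (by omega)
    set Bad1 := (reg1 σ X).filter fun R => 10 ≤ (spt (zR σ X R)).card with hBad1
    set Bad2 := (reg1 σ X).filter fun R => ∃ v ∈ X, 5 ≤ degX G X v ∧ v ∈ VZ (zR σ X R)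
      with hBad2
    have hB1 : 8 * (reg1 σ X).card + 2 * Bad1.card ≤
        ∑ R ∈ reg1 σ X, (spt (zR σ X R)).card := by
      have h3 : ∑ R ∈ reg1 σ X, (8 + if 10 ≤ (spt (zR σ X R)).card then 2 else 0) ≤
          ∑ R ∈ reg1 σ X, (spt (zR σ X R)).card := by
        refine Finset.sum_le_sum fun R hR => ?_
        have := hstr R hR
        split_ifs <;> omega
      rw [Finset.sum_add_distrib, Finset.sum_const, smul_eq_mul, ← Finset.sum_filter,
        Finset.sum_const, smul_eq_mul, ← hBad1] at h3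
      omega
    have hB2 : Bad2.card ≤ 10 * ((dartsIn G X).ncard - 4 * X.card) := by
      have h3 : Bad2 ⊆ (X.filter fun v => 5 ≤ degX G X v).biUnion
          (fun v => (reg1 σ X).filter fun R => v ∈ VZ (zR σ X R)) := by
        intro R hR
        rw [hBad2, Finset.mem_filter] at hR
        obtain ⟨hR1, v, hv, hv5, hvz⟩ := hR
        rw [Finset.mem_biUnion]
        exact ⟨v, Finset.mem_filter.mpr ⟨hv, hv5⟩, Finset.mem_filter.mpr ⟨hR1, hvz⟩⟩
      have h4 : Bad2.card ≤ ∑ v ∈ X.filter (fun v => 5 ≤ degX G X v), 10 * (degX G X v - 4) := by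
        refine (Finset.card_le_card h3).trans (Finset.card_biUnion_le.trans ?_)
        refine Finset.sum_le_sum fun v hv => ?_
        rw [Finset.mem_filter] at hv
        have := card_reg_through hσ X v
        omega
      have h5 : ∑ v ∈ X.filter (fun v => 5 ≤ degX G X v), 10 * (degX G X v - 4) ≤
          ∑ v ∈ X, 10 * (degX G X v - 4) :=
        Finset.sum_le_sum_of_subset (Finset.filter_subset _ _)
      have h6 : ∑ v ∈ X, (degX G X v - 4) + 4 * X.card = (dartsIn G X).ncard := by
        rw [← hsum]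
        have h7 : ∑ v ∈ X, (degX G X v - 4) + ∑ v ∈ X, 4 = ∑ v ∈ X, degX G X v := by
          rw [← Finset.sum_add_distrib]
          refine Finset.sum_congr rfl fun v hv => ?_
          have := hdeg v hv
          omega
        rw [Finset.sum_const, smul_eq_mul] at h7
        omega
      have h8 : ∑ v ∈ X, 10 * (degX G X v - 4) = 10 * ∑ v ∈ X, (degX G X v - 4) := by
        rw [Finset.mul_sum]
      omega
    have hgood : ∃ R ∈ reg1 σ X, R ∉ Bad1 ∧ R ∉ Bad2 := by
      by_contra hcon
      push Not at hcon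
      have h3 : reg1 σ X ⊆ Bad1 ∪ Bad2 := by
        intro R hR
        rw [Finset.mem_union]
        by_cases h : R ∈ Bad1
        · exact Or.inl h
        · exact Or.inr (hcon R hR h)
      have h4 := (Finset.card_le_card h3).trans (Finset.card_union_le _ _)
      omega
    obtain ⟨R, hR, hR1, hR2⟩ := hgood
    have hlt : (spt (zR σ X R)).card < 10 := by
      by_contra hcon
      exact hR1 (Finset.mem_filter.mpr ⟨hR, not_lt.mp hcon⟩)
    have hzc := zR_mem_cycX hσ X R
    obtain ⟨u, v, x, w, h3, h4, h5, h6, h7, h8, mu, mv, mx, mw⟩ :=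
      (structure_lemma htri hzc.1 (Finset.mem_filter.mp hR).2).2 hlt
    have hVX : ∀ y ∈ VZ (zR σ X R), y ∈ X ∧ degX G X y = 4 := by
      intro y hy
      obtain ⟨d, hd, rfl⟩ := Finset.mem_image.mp hy
      rw [mem_spt] at hd
      have hdX : d ∈ dartsIn G X := by
        by_contra hcon
        exact hd (hzc.2 d hcon)
      refine ⟨hdX.1, ?_⟩
      have h9 := hdeg _ hdX.1
      by_contra hcon
      exact hR2 (Finset.mem_filter.mpr ⟨hR, d.fst, hdX.1, by omega, hy⟩)
    exact ⟨u, v, x, w, h3, h4, h5, h6, h7, h8, (hVX u mu).1, (hVX v mv).1, (hVX x mx).1,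
      (hVX w mw).1, (hVX u mu).2, (hVX v mv).2, (hVX x mx).2, (hVX w mw).2⟩

end Q127.Surf
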