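import Mathlib

/-!
# Graphs embedded in closed orientable surfaces, via rotation systems

A graph embedded in an orientable surface is given, up to the usual equivalence, by a rotation
system: a permutation `σ` of the darts (oriented edges) which sends every dart to the next dart
leaving the same vertex in the clockwise order around that vertex. The boundary walks of the faces
are the orbits of the permutation that sends a dart `d` to `σ` of the reverse of `d`. The genus is
given by Euler's formula.
-/

set_option autoImplicit false

namespace Q127.Surf

open SimpleGraph

variable {V : Type} (G : SimpleGraph V)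

/-- `σ` is a rotation system of `G`: it permutes the darts leaving each vertex cyclically. -/
structure IsRotation (σ : Equiv.Perm G.Dart) : Prop where
  fst_eq : ∀ d, (σ d).fst = d.fst
  transitive : ∀ d e : G.Dart, d.fst = e.fst → σ.SameCycle d e

/-- The reversal of darts. -/
def dartSymm : Equiv.Perm G.Dart :=
  Function.Involutive.toPerm Dart.symm Dart.symm_involutive

/-- The face permutation: it sends a dart `d` to the dart that follows `d` in the boundary walk of
the face next to it. -/
def facePerm (σ : Equiv.Perm G.Dart) : Equiv.Perm G.Dart := σ * dartSymm G

/-- The number of faces: the orbits of the face permutation, and one for each isolated vertex. -/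
noncomputable def numFaces (σ : Equiv.Perm G.Dart) : ℕ :=
  Nat.card (Quotient (Equiv.Perm.SameCycle.setoid (facePerm G σ))) +
    Nat.card {v : V // ∀ w, ¬ G.Adj v w}

/-- The rotation system gives an embedding of `G` in the closed orientable surface of genus `g`:
the genera of the components (given by Euler's formula) sum to at most `g`. -/
def GenusAtMost (σ : Equiv.Perm G.Dart) (g : ℕ) : Prop :=
  2 * (Nat.card G.ConnectedComponent : ℤ) - 2 * (g : ℤ) ≤
    (Nat.card V : ℤ) - (Nat.card G.edgeSet : ℤ) + (numFaces G σ : ℤ)

/-- Every facial boundary walk has even length. -/
def EvenFaced (σ : Equiv.Perm G.Dart) : Prop :=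
  ∀ d : G.Dart, Even (Function.minimalPeriod (facePerm G σ) d)

/-- Homotopy of walks in the surface: the smallest congruence for which every walk along an edge
and back is trivial and every closed walk around a face (`k` steps of the face permutation that
lead back to the starting dart) is trivial. -/
inductive Homotopic (σ : Equiv.Perm G.Dart) : ∀ {u v : V}, G.Walk u v → G.Walk u v → Prop
  | refl {u v : V} (p : G.Walk u v) : Homotopic σ p p
  | symm {u v : V} {p q : G.Walk u v} : Homotopic σ p q → Homotopic σ q p
  | trans {u v : V} {p q r : G.Walk u v} : Homotopic σ p q → Homotopic σ q r → Homotopic σ p r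
  | append {u v w : V} {p p' : G.Walk u v} {q q' : G.Walk v w} :
      Homotopic σ p p' → Homotopic σ q q' → Homotopic σ (p.append q) (p'.append q')
  | spur {u v : V} (h : G.Adj u v) :
      Homotopic σ (Walk.cons h (Walk.cons h.symm Walk.nil)) Walk.nil
  | face {u : V} (p : G.Walk u u) (d : G.Dart) (k : ℕ) (hk : (facePerm G σ ^ k) d = d)
      (hp : p.darts = (List.range k).map fun i => (facePerm G σ ^ i) d) :
      Homotopic σ p Walk.nil

/-- A closed walk is contractible if it is homotopic to the trivial walk. -/
def Contractible (σ : Equiv.Perm G.Dart) {u : V} (p : G.Walk u u) : Prop :=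
  Homotopic G σ p Walk.nil

/-- `G` is `k`-list colourable. -/
def ListColourable (k : ℕ) : Prop :=
  ∀ (C : Type) (L : V → Finset C), (∀ v, k ≤ (L v).card) →
    ∃ f : V → C, (∀ v, f v ∈ L v) ∧ ∀ u v, G.Adj u v → f u ≠ f v

end Q127.Surf
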