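import Pool.Agent.Q127.Surf.LinAlg

/-!
# Euler's formula: the codimension of the face space in the cycle space
-/

set_option autoImplicit false

namespace Q127.Surf

open SimpleGraph Module

variable {V : Type} {G : SimpleGraph V}

theorem inv_zpow {α : Type*} (f : Equiv.Perm α) (t : α → F2) (h : ∀ x, t (f x) = t x) (i : ℤ)
    (x : α) : t ((f ^ i) x) = t x := by
  induction i using Int.induction_on generalizing x with
  | zero => rfl
  | succ n ih =>
    rw [zpow_add_one, Equiv.Perm.mul_apply, ih, h]
  | pred n ih =>
    rw [zpow_sub_one, Equiv.Perm.mul_apply, ih]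
    have h1 := h (f⁻¹ x)
    have h2 : f (f⁻¹ x) = x := by simp
    rw [h2] at h1
    exact h1.symm

theorem inv_sameCycle {α : Type*} (f : Equiv.Perm α) (t : α → F2) (h : ∀ x, t (f x) = t x)
    {x y : α} (hxy : f.SameCycle x y) : t x = t y := by
  obtain ⟨i, rfl⟩ := hxy
  exact (inv_zpow f t h i x).symm

theorem finrank_invS [Fintype V] (σ : Equiv.Perm G.Dart) :
    finrank F2 (invS σ) =
      Nat.card (Quotient (Equiv.Perm.SameCycle.setoid (facePerm G σ))) := by
  classical
  have e : invS σ ≃ₗ[F2] (Quotient (Equiv.Perm.SameCycle.setoid (facePerm G σ)) → F2) :=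
    { toFun := fun t => Quotient.lift t.1 (fun a b hab =>
        inv_sameCycle (facePerm G σ) t.1 t.2 hab)
      map_add' := by
        intro x y
        funext q
        induction q using Quotient.inductionOn with
        | h a => rfl
      map_smul' := by
        intro c x
        funext q
        induction q using Quotient.inductionOn with
        | h a => rfl
      invFun := fun y => ⟨fun d => y (Quotient.mk _ d), by
        intro d
        change y _ = y _
        congr 1
        refine Quotient.sound ?_
        exact (Equiv.Perm.SameCycle.refl (facePerm G σ) d).apply_left⟩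
      left_inv := by
        intro x
        rfl
      right_inv := by
        intro y
        funext q
        induction q using Quotient.inductionOn with
        | h a => rfl }
  rw [e.finrank_eq, Module.finrank_fintype_fun_eq_card, ← Nat.card_eq_fintype_card]

theorem const_of_walk {σ : Equiv.Perm G.Dart} (hσ : IsRotation G σ) {t : G.Dart → F2}
    (h1 : ∀ d, t (σ d) = t d) (h2 : ∀ d, t d.symm = t d) {u v : V} (w : G.Walk u v) :
    ∀ d e : G.Dart, d.fst = u → e.fst = v → t d = t e := by
  induction w with
  | nil =>
    intro d e hd he
    exact inv_sameCycle σ t h1 (hσ.transitive d e (hd.trans he.symm))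
  | @cons a b c hadj _ ih =>
    intro d e hd he
    have h3 : t d = t (⟨(a, b), hadj⟩ : G.Dart) :=
      inv_sameCycle σ t h1 (hσ.transitive _ _ hd)
    rw [h3, ← h2 ⟨(a, b), hadj⟩]
    exact ih _ e rfl he

theorem isolated_reachable {v w : V} (hv : ∀ u, ¬ G.Adj v u) (h : G.Reachable v w) : v = w := by
  obtain ⟨p⟩ := h
  cases p with
  | nil => rfl
  | cons hadj _ => exact absurd hadj (hv _)

theorem finrank_ker_bd_le [Fintype V] {σ : Equiv.Perm G.Dart} (hσ : IsRotation G σ) :
    finrank F2 (invS σ ⊓ LinearMap.ker (bd G) : Submodule F2 (G.Dart → F2)) +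
      Nat.card {v : V // ∀ w, ¬ G.Adj v w} ≤ Nat.card G.ConnectedComponent := by
  classical
  let NC := {C : G.ConnectedComponent // ∃ d : G.Dart, G.connectedComponentMk d.fst = C}
  have h1 : finrank F2 (invS σ ⊓ LinearMap.ker (bd G) : Submodule F2 (G.Dart → F2)) ≤
      Fintype.card NC := by
    let Psi : (invS σ ⊓ LinearMap.ker (bd G) : Submodule F2 (G.Dart → F2)) →ₗ[F2] (NC → F2) :=
      { toFun := fun t C => t.1 C.2.choose
        map_add' := fun x y => rfl
        map_smul' := fun c x => rfl }
    have hinj : Function.Injective Psi := by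
      intro x y hxy
      apply Subtype.ext
      funext d
      have hprop : ∀ z : (invS σ ⊓ LinearMap.ker (bd G) : Submodule F2 (G.Dart → F2)),
          z.1 d = z.1 (⟨G.connectedComponentMk d.fst, d, rfl⟩ : NC).2.choose := by
        intro z
        have hz1 := z.2.1
        have hz2 := (mem_ker_bd z.1).mp z.2.2
        have h3 : ∀ d, z.1 (σ d) = z.1 d := by
          intro d
          rw [← facePerm_symm_apply, hz1, hz2]
        have h4 := (⟨G.connectedComponentMk d.fst, d, rfl⟩ : NC).2.choose_spec
        have h5 : G.Reachable (⟨G.connectedComponentMk d.fst, d, rfl⟩ : NC).2.choose.fst d.fst :=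
          SimpleGraph.ConnectedComponent.eq.mp h4
        obtain ⟨w⟩ := h5.symm
        exact const_of_walk hσ h3 hz2 w d _ rfl rfl
      have h6 := congrFun hxy ⟨G.connectedComponentMk d.fst, d, rfl⟩
      rw [hprop x, hprop y]
      exact h6
    have := LinearMap.finrank_le_finrank_of_injective hinj
    rwa [Module.finrank_fintype_fun_eq_card] at this
  have h2 : Fintype.card NC + Nat.card {v : V // ∀ w, ¬ G.Adj v w} ≤
      Nat.card G.ConnectedComponent := by
    rw [Nat.card_eq_fintype_card, Nat.card_eq_fintype_card, ← Fintype.card_sum]
    refine Fintype.card_le_of_injective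
      (fun x : NC ⊕ {v : V // ∀ w, ¬ G.Adj v w} =>
        Sum.elim (fun C => C.1) (fun v => G.connectedComponentMk v.1) x) ?_
    rintro (C | v) (C' | v') h
    · simp only [Sum.elim_inl] at h
      exact congrArg Sum.inl (Subtype.ext h)
    · simp only [Sum.elim_inl, Sum.elim_inr] at h
      exfalso
      obtain ⟨d, hd⟩ := C.2
      have h3 : G.Reachable v'.1 d.fst := SimpleGraph.ConnectedComponent.eq.mp (h.symm.trans hd.symm)
      have h4 := isolated_reachable v'.2 h3
      exact v'.2 d.snd (h4 ▸ d.adj)
    · simp only [Sum.elim_inl, Sum.elim_inr] at h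
      exfalso
      obtain ⟨d, hd⟩ := C'.2
      have h3 : G.Reachable v.1 d.fst := SimpleGraph.ConnectedComponent.eq.mp (h.trans hd.symm)
      have h4 := isolated_reachable v.2 h3
      exact v.2 d.snd (h4 ▸ d.adj)
    · simp only [Sum.elim_inr] at h
      have h3 : G.Reachable v.1 v'.1 := SimpleGraph.ConnectedComponent.eq.mp h
      exact congrArg Sum.inr (Subtype.ext (isolated_reachable v.2 h3))
  omega

open Classical in
theorem div_single [Fintype V] (d : G.Dart) :
    div G (Pi.single d 1) = Pi.single d.fst 1 := by
  funext v
  rw [div_apply, Finset.sum_filter, Finset.sum_eq_single d]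
  · rw [Pi.single_eq_same, Pi.single_apply]
    by_cases h : d.fst = v
    · rw [if_pos h, if_pos h.symm]
    · rw [if_neg h, if_neg (fun h' => h h'.symm)]
  · intro b _ hb
    rw [Pi.single_eq_of_ne hb]
    split_ifs <;> rfl
  · intro h
    exact absurd (Finset.mem_univ d) h

open Classical in
theorem bd_single (d : G.Dart) :
    bd G (Pi.single d 1) = Pi.single d 1 + Pi.single d.symm 1 := by
  funext e
  rw [bd_apply, Pi.add_apply]
  congr 1
  rw [Pi.single_apply, Pi.single_apply]
  by_cases h : e.symm = d
  · rw [if_pos h, if_pos (by rw [← h, Dart.symm_symm])]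
  · rw [if_neg h, if_neg (fun h' => h (by rw [h', Dart.symm_symm]))]

open Classical in
theorem single_add_single_mem [Fintype V] {u v : V} (w : G.Walk u v) :
    (Pi.single u 1 + Pi.single v 1 : V → F2) ∈ (symS G).map (div G) := by
  induction w with
  | nil =>
    rename_i a
    have : (Pi.single a 1 + Pi.single a 1 : V → F2) = 0 := by
      funext x
      exact f2_add_self _
    rw [this]
    exact Submodule.zero_mem _
  | @cons a b c hadj _ ih =>
    have h1 : (Pi.single a 1 + Pi.single b 1 : V → F2) ∈ (symS G).map (div G) := by
      refine ⟨bd G (Pi.single ⟨(a, b), hadj⟩ 1), bd_mem_symS _, ?_⟩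
      rw [bd_single, map_add, div_single, div_single]
      rfl
    have h2 : (Pi.single a 1 + Pi.single c 1 : V → F2)
        = (Pi.single a 1 + Pi.single b 1) + (Pi.single b 1 + Pi.single c 1) := by
      funext x
      simp only [Pi.add_apply]
      have := f2_add_self ((Pi.single b 1 : V → F2) x)
      linear_combination (-1 : F2) * this
    rw [h2]
    exact Submodule.add_mem _ h1 ih

theorem finrank_map_div_ge [Fintype V] :
    Nat.card V ≤ finrank F2 ((symS G).map (div G)) + Nat.card G.ConnectedComponent := by
  classical
  let P : (V → F2) →ₗ[F2] (G.ConnectedComponent → F2) :=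
    { toFun := fun f C => ∑ v ∈ Finset.univ.filter (fun v => G.connectedComponentMk v = C), f v
      map_add' := by
        intro x y
        funext v
        simp only [Pi.add_apply, Finset.sum_add_distrib]
      map_smul' := by
        intro c x
        funext v
        simp only [Pi.smul_apply, smul_eq_mul, RingHom.id_apply, Finset.mul_sum] }
  have hker : LinearMap.ker P ≤ (symS G).map (div G) := by
    intro f hf
    rw [LinearMap.mem_ker] at hf
    let root : V → V := fun v => (G.connectedComponentMk v).out
    have hroot : ∀ v, G.Reachable v (root v) := by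
      intro v
      have : G.connectedComponentMk (root v) = G.connectedComponentMk v := Quot.out_eq _
      exact (SimpleGraph.ConnectedComponent.eq.mp this).symm
    have hmem : ∑ v, f v • (Pi.single v 1 + Pi.single (root v) 1 : V → F2) ∈
        (symS G).map (div G) := by
      refine Submodule.sum_mem _ fun v _ => Submodule.smul_mem _ _ ?_
      obtain ⟨w⟩ := hroot v
      exact single_add_single_mem w
    have hsum : ∑ v, f v • (Pi.single v 1 + Pi.single (root v) 1 : V → F2) = f := by
      simp only [smul_add, Finset.sum_add_distrib]
      have h1 : ∑ v, f v • (Pi.single v 1 : V → F2) = f := by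
        funext x
        rw [Finset.sum_apply, Finset.sum_eq_single x]
        · simp
        · intro b _ hb
          rw [Pi.smul_apply, Pi.single_eq_of_ne hb.symm, smul_zero]
        · intro h
          exact absurd (Finset.mem_univ x) h
      have h2 : ∑ v, f v • (Pi.single (root v) 1 : V → F2) = 0 := by
        funext x
        rw [Finset.sum_apply, Pi.zero_apply]
        have h3 : ∀ v, (f v • (Pi.single (root v) 1 : V → F2)) x
            = ∑ C : G.ConnectedComponent, if G.connectedComponentMk v = C then
              f v * (Pi.single C.out 1 : V → F2) x else 0 := by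
          intro v
          rw [Finset.sum_ite_eq Finset.univ (G.connectedComponentMk v), if_pos (Finset.mem_univ _)]
          rfl
        rw [Finset.sum_congr rfl fun v _ => h3 v, Finset.sum_comm]
        refine Finset.sum_eq_zero fun C _ => ?_
        rw [← Finset.sum_filter, ← Finset.sum_mul]
        have h4 := congrFun hf C
        change ∑ v ∈ Finset.univ.filter (fun v => G.connectedComponentMk v = C), f v = 0 at h4
        rw [h4, zero_mul]
      rw [h1, h2, add_zero]
    rw [← hsum]
    exact hmem
  have h1 := LinearMap.finrank_range_add_finrank_ker P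
  rw [Module.finrank_fintype_fun_eq_card] at h1
  have h2 : finrank F2 (LinearMap.range P) ≤ Nat.card G.ConnectedComponent := by
    have := Submodule.finrank_le (LinearMap.range P)
    rwa [Module.finrank_fintype_fun_eq_card, ← Nat.card_eq_fintype_card] at this
  have h3 := Submodule.finrank_mono hker
  rw [Nat.card_eq_fintype_card (α := V)]
  omega

/-- Euler's formula, in the form used below: the face space has codimension at most `2 g` in the
cycle space. -/
theorem finrank_cyc_le [Fintype V] {σ : Equiv.Perm G.Dart} (hσ : IsRotation G σ) (g : ℕ)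
    (hg : GenusAtMost G σ g) : finrank F2 (cyc G) ≤ finrank F2 (bou σ) + 2 * g := by
  classical
  have h1 := finrank_map_add (symS G) (div G)
  have h2 := finrank_map_add (invS σ) (bd G)
  have h3 := finrank_symS (G := G)
  have h4 := two_mul_card_edgeSet (G := G)
  have h5 := finrank_invS (G := G) σ
  have h6 := finrank_ker_bd_le hσ
  have h7 := finrank_map_div_ge (G := G)
  unfold GenusAtMost numFaces at hg
  change finrank F2 (symS G ⊓ LinearMap.ker (div G) : Submodule F2 (G.Dart → F2)) ≤
    finrank F2 ((invS σ).map (bd G)) + 2 * g
  omega

end Q127.Surf
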