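import Pool.Agent.Q127.Surf.Count

/-!
# Locally planar even-faced graphs are 4-list colourable
-/

set_option autoImplicit false

namespace Q127.Surf

open SimpleGraph Module

variable {V : Type} {G : SimpleGraph V}

open Classical in
theorem card_nb_le [Fintype V] (X : Finset V) (v : V) (hv : v ∈ X) :
    (X.filter fun w => G.Adj v w).card ≤ degX G X v := by
  unfold degX
  refine Finset.card_le_card_of_surjOn (fun d : G.Dart => d.snd) ?_
  intro w hw
  rw [Finset.mem_coe, Finset.mem_filter] at hw
  refine ⟨⟨(v, w), hw.2⟩, ?_, rfl⟩
  rw [Finset.mem_coe, Finset.mem_filter]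
  exact ⟨Finset.mem_univ _, ⟨hv, hw.1⟩, rfl⟩

/-- Four lists of size two on a 4-cycle. -/
theorem four_cycle {C : Type} [DecidableEq C] (A B A' B' : Finset C) (hA : 2 ≤ A.card)
    (hB : 2 ≤ B.card) (hA' : 2 ≤ A'.card) (hB' : 2 ≤ B'.card) :
    ∃ a ∈ A, ∃ b ∈ B, ∃ a' ∈ A', ∃ b' ∈ B', a ≠ b ∧ b ≠ a' ∧ a' ≠ b' ∧ b' ≠ a := by
  by_cases hc : ∃ x ∈ A, x ∈ A'
  · obtain ⟨x, hx, hx'⟩ := hc
    obtain ⟨b, hb, hbx⟩ := Finset.exists_mem_ne (Nat.lt_of_succ_le hB) x
    obtain ⟨b', hb', hbx'⟩ := Finset.exists_mem_ne (Nat.lt_of_succ_le hB') x
    exact ⟨x, hx, b, hb, x, hx', b', hb', hbx.symm, hbx, hbx'.symm, hbx'⟩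
  · push Not at hc
    -- the pairs that block a list of size two
    let P : Finset (C × C) := A ×ˢ A'
    have hP : 4 ≤ P.card := by
      rw [Finset.card_product]
      exact Nat.mul_le_mul hA hA'
    have hblock : ∀ D : Finset C, 2 ≤ D.card →
        (P.filter fun q => ∀ y ∈ D, y = q.1 ∨ y = q.2).card ≤ 1 := by
      intro D hD
      rw [Finset.card_le_one]
      rintro ⟨x, x'⟩ hq ⟨y, y'⟩ hr
      rw [Finset.mem_filter, Finset.mem_product] at hq hr
      obtain ⟨⟨hx, hx'⟩, hq⟩ := hq
      obtain ⟨⟨hy, hy'⟩, hr⟩ := hr
      simp only at hx hx' hy hy' hq hr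
      have hD2 : ∀ z z' : C, (∀ w ∈ D, w = z ∨ w = z') → z ∈ D ∧ z' ∈ D := by
        intro z z' h
        constructor
        · by_contra hcon
          have : D ⊆ {z'} := by
            intro w hw
            rcases h w hw with rfl | rfl
            · exact absurd hw hcon
            · exact Finset.mem_singleton_self _
          have := Finset.card_le_card this
          rw [Finset.card_singleton] at this
          omega
        · by_contra hcon
          have : D ⊆ {z} := by
            intro w hw
            rcases h w hw with rfl | rfl
            · exact Finset.mem_singleton_self _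
            · exact absurd hw hcon
          have := Finset.card_le_card this
          rw [Finset.card_singleton] at this
          omega
      have h1 := hD2 x x' hq
      have h3 : x = y := by
        rcases hr x h1.1 with h | h
        · exact h
        · exact absurd (h ▸ hy') (hc x hx)
      have h4 : x' = y' := by
        rcases hr x' h1.2 with h | h
        · exact absurd hx' (h ▸ hc y hy)
        · exact h
      rw [h3, h4]
    have h1 := hblock B hB
    have h2 := hblock B' hB'
    have h3 : ∃ q ∈ P, q ∉ (P.filter fun q => ∀ y ∈ B, y = q.1 ∨ y = q.2) ∧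
        q ∉ (P.filter fun q => ∀ y ∈ B', y = q.1 ∨ y = q.2) := by
      by_contra hcon
      push Not at hcon
      have h4 : P ⊆ (P.filter fun q => ∀ y ∈ B, y = q.1 ∨ y = q.2) ∪
          (P.filter fun q => ∀ y ∈ B', y = q.1 ∨ y = q.2) := by
        intro q hq
        rw [Finset.mem_union]
        by_cases h : q ∈ (P.filter fun q => ∀ y ∈ B, y = q.1 ∨ y = q.2)
        · exact Or.inl h
        · exact Or.inr (hcon q hq h)
      have h5 := (Finset.card_le_card h4).trans (Finset.card_union_le _ _)
      omega
    obtain ⟨⟨x, x'⟩, hq, hq1, hq2⟩ := h3
    rw [Finset.mem_filter, not_and] at hq1 hq2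
    have hb := hq1 hq
    have hb' := hq2 hq
    push Not at hb hb'
    obtain ⟨b, hbB, hb1, hb2⟩ := hb
    obtain ⟨b', hbB', hb1', hb2'⟩ := hb'
    rw [Finset.mem_product] at hq
    exact ⟨x, hq.1, b, hbB, x', hq.2, b', hbB', hb1.symm, hb2, hb2'.symm, hb1'⟩

theorem no_triangle {σ : Equiv.Perm G.Dart} [Fintype V] (heven : EvenFaced G σ)
    (hcontr : ∀ (u : V) (p : G.Walk u u), p.IsCycle → p.length < 4 → Contractible G σ p)
    (a b c : V) (hab : G.Adj a b) (hbc : G.Adj b c) : ¬ G.Adj c a := by
  intro hca
  have hcyc : (Walk.cons hab (Walk.cons hbc (Walk.cons hca Walk.nil))).IsCycle := by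
    rw [Walk.cons_isCycle_iff]
    constructor
    · rw [Walk.isPath_def]
      simp only [Walk.support_cons, Walk.support_nil, List.nodup_cons, List.mem_cons,
        List.mem_nil_iff, or_false, not_or, not_false_eq_true, List.nodup_nil, and_true]
      exact ⟨⟨hbc.ne, hab.ne'⟩, hca.ne⟩
    · simp only [Walk.edges_cons, Walk.edges_nil, List.mem_cons, List.mem_nil_iff, or_false,
        not_or, Sym2.eq_iff, not_and]
      refine ⟨⟨fun h _ => hab.ne h, fun h _ => hca.ne h.symm⟩, ⟨fun h _ => hca.ne h.symm,
        fun _ h => hbc.ne h⟩⟩
  have h1 := homotopic_cls (hcontr a _ hcyc (by simp))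
  rw [cls_nil, add_zero] at h1
  have h2 := even_length_of_cls_mem heven _ h1
  simp only [Walk.length_cons, Walk.length_nil] at h2
  exact absurd h2 (by decide)

/-- Even-faced graphs on the surface of genus `g` whose noncontractible cycles have length at
least `82 g + 4` are 4-list colourable. -/
theorem main [Fintype V] {σ : Equiv.Perm G.Dart} (hσ : IsRotation G σ) (g : ℕ)
    (hg : GenusAtMost G σ g) (heven : EvenFaced G σ)
    (hcontr : ∀ (u : V) (p : G.Walk u u), p.IsCycle → ¬ Contractible G σ p →
      82 * g + 4 ≤ p.length) : ListColourable G 4 := by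
  classical
  intro C L hL
  have htri := no_triangle heven (fun u p hp hlen => by
    by_contra hcon
    have := hcontr u p hp hcon
    omega)
  have hsmall : ∀ X : Finset V, X.card < 82 * g + 4 → cycX G X ≤ bou σ := by
    intro X hX
    refine cycX_le_bou hσ X ?_
    intro u p hp hlen
    have h1 : Contractible G σ p := by
      by_contra hcon
      have := hcontr u p hp hcon
      omega
    have h2 := homotopic_cls h1
    rwa [cls_nil, add_zero] at h2
  have hne : ∀ v, (L v).Nonempty := by
    intro v
    rw [← Finset.card_pos]
    have := hL v
    omega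
  have key : ∀ (n : ℕ) (X : Finset V), X.card = n → ∃ f : V → C, (∀ v, f v ∈ L v) ∧
      ∀ u ∈ X, ∀ v ∈ X, G.Adj u v → f u ≠ f v := by
    intro n
    induction n using Nat.strong_induction_on with
    | _ n ih =>
      intro X hXn
      rcases X.eq_empty_or_nonempty with rfl | hXne
      · exact ⟨fun v => (hne v).choose, fun v => (hne v).choose_spec, fun u hu =>
          absurd hu (Finset.notMem_empty u)⟩
      by_cases hdeg : ∀ v ∈ X, 4 ≤ degX G X v
      · obtain ⟨u, v, x, w, huv, hvx, hxw, hwu, hux, hvw, mu, mv, mx, mw, du, dv, dx, dw⟩ :=
          exists_good hσ g hg htri X hXne hdeg (hsmall X)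
        set X' : Finset V := X \ {u, v, x, w} with hX'
        have hlt : X'.card < n := by
          rw [← hXn]
          refine Finset.card_lt_card ⟨Finset.sdiff_subset, fun h => ?_⟩
          have := h mu
          rw [hX', Finset.mem_sdiff] at this
          exact this.2 (Finset.mem_insert_self _ _)
        obtain ⟨f, hf1, hf2⟩ := ih X'.card hlt X' rfl
        -- available colours
        let Av : V → Finset C := fun y => L y \ (X'.filter fun z => G.Adj y z).image f
        have hAv : ∀ y p q, y ∈ X → degX G X y = 4 → p ∈ X → q ∈ X → p ≠ q → G.Adj y p →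
            G.Adj y q → p ∉ X' → q ∉ X' → 2 ≤ (Av y).card := by
          intro y p q hy hdy hp hq hpq hyp hyq hpX hqX
          have h1 : (X'.filter fun z => G.Adj y z) ⊆
              ((X.filter fun z => G.Adj y z).erase p).erase q := by
            intro z hz
            rw [Finset.mem_filter] at hz
            rw [Finset.mem_erase, Finset.mem_erase, Finset.mem_filter]
            exact ⟨fun h => hqX (h ▸ hz.1), fun h => hpX (h ▸ hz.1),
              (Finset.mem_sdiff.mp hz.1).1, hz.2⟩
          have h2 := Finset.card_le_card h1
          have m1 : p ∈ X.filter (fun z => G.Adj y z) := Finset.mem_filter.mpr ⟨hp, hyp⟩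
          have m2 : q ∈ (X.filter (fun z => G.Adj y z)).erase p :=
            Finset.mem_erase.mpr ⟨hpq.symm, Finset.mem_filter.mpr ⟨hq, hyq⟩⟩
          rw [Finset.card_erase_of_mem m2, Finset.card_erase_of_mem m1] at h2
          have h3 := card_nb_le (G := G) X y hy
          have h4 : ((X'.filter fun z => G.Adj y z).image f).card ≤
              (X'.filter fun z => G.Adj y z).card := Finset.card_image_le
          have h5 := Finset.le_card_sdiff ((X'.filter fun z => G.Adj y z).image f) (L y)
          have h6 := hL y
          change 2 ≤ (L y \ (X'.filter fun z => G.Adj y z).image f).card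
          omega
        have nu : u ∉ X' := fun h => (Finset.mem_sdiff.mp h).2 (by simp)
        have nv : v ∉ X' := fun h => (Finset.mem_sdiff.mp h).2 (by simp)
        have nx : x ∉ X' := fun h => (Finset.mem_sdiff.mp h).2 (by simp)
        have nw : w ∉ X' := fun h => (Finset.mem_sdiff.mp h).2 (by simp)
        obtain ⟨cu, hcu, cv, hcv, cx, hcx, cw, hcw, e1, e2, e3, e4⟩ :=
          four_cycle (Av u) (Av v) (Av x) (Av w)
            (hAv u v w mu du mv mw hvw huv hwu.symm nv nw)
            (hAv v u x mv dv mu mx hux huv.symm hvx nu nx)
            (hAv x v w mx dx mv mw hvw hvx.symm hxw nv nw)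
            (hAv w x u mw dw mx mu hux.symm hxw.symm hwu nx nu)
        let F : V → C := fun y =>
          if y = u then cu else if y = v then cv else if y = x then cx else if y = w then cw
          else f y
        have Fu : F u = cu := if_pos rfl
        have Fv : F v = cv := by
          change (if v = u then cu else if v = v then cv else _) = cv
          rw [if_neg huv.ne', if_pos rfl]
        have Fx : F x = cx := by
          change (if x = u then cu else if x = v then cv else if x = x then cx else _) = cx
          rw [if_neg hux.symm, if_neg hvx.ne', if_pos rfl]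
        have Fw : F w = cw := by
          change (if w = u then cu else if w = v then cv else if w = x then cx else
            if w = w then cw else _) = cw
          rw [if_neg hwu.ne, if_neg hvw.symm, if_neg hxw.ne', if_pos rfl]
        have Fo : ∀ y, y ∈ X' → F y = f y := by
          intro y hy
          change (if y = u then cu else if y = v then cv else if y = x then cx else
            if y = w then cw else f y) = f y
          rw [if_neg (fun h : y = u => nu (h ▸ hy)), if_neg (fun h : y = v => nv (h ▸ hy)),
            if_neg (fun h : y = x => nx (h ▸ hy)), if_neg (fun h : y = w => nw (h ▸ hy))]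
        have hsub : ∀ y (cy : C), cy ∈ Av y → cy ∈ L y ∧ ∀ z ∈ X', G.Adj y z → cy ≠ f z := by
          intro y cy hcy
          rw [Finset.mem_sdiff] at hcy
          refine ⟨hcy.1, fun z hz hyz h => hcy.2 ?_⟩
          rw [h]
          exact Finset.mem_image_of_mem _ (Finset.mem_filter.mpr ⟨hz, hyz⟩)
        refine ⟨F, ?_, ?_⟩
        · intro y
          by_cases h1 : y = u
          · rw [h1, Fu]
            exact (hsub u cu hcu).1
          by_cases h2 : y = v
          · rw [h2, Fv]
            exact (hsub v cv hcv).1
          by_cases h3 : y = x
          · rw [h3, Fx]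
            exact (hsub x cx hcx).1
          by_cases h4 : y = w
          · rw [h4, Fw]
            exact (hsub w cw hcw).1
          · change (if y = u then cu else if y = v then cv else if y = x then cx else
              if y = w then cw else f y) ∈ L y
            rw [if_neg h1, if_neg h2, if_neg h3, if_neg h4]
            exact hf1 y
        · have hcases : ∀ y ∈ X, y ∈ X' ∨ y = u ∨ y = v ∨ y = x ∨ y = w := by
            intro y hy
            by_cases h : y ∈ ({u, v, x, w} : Finset V)
            · right
              simpa using h
            · exact Or.inl (Finset.mem_sdiff.mpr ⟨hy, h⟩)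
          -- colours on the cycle against colours outside
          have hout : ∀ y z, (y = u ∨ y = v ∨ y = x ∨ y = w) → z ∈ X' → G.Adj y z →
              F y ≠ F z := by
            intro y z hy hz hyz
            rw [Fo z hz]
            rcases hy with rfl | rfl | rfl | rfl
            · rw [Fu]
              exact (hsub _ cu hcu).2 z hz hyz
            · rw [Fv]
              exact (hsub _ cv hcv).2 z hz hyz
            · rw [Fx]
              exact (hsub _ cx hcx).2 z hz hyz
            · rw [Fw]
              exact (hsub _ cw hcw).2 z hz hyz
          intro y hy z hz hyz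
          rcases hcases y hy with h1 | h1
          · rcases hcases z hz with h2 | h2
            · rw [Fo y h1, Fo z h2]
              exact hf2 y h1 z h2 hyz
            · exact (hout z y h2 h1 hyz.symm).symm
          · rcases hcases z hz with h2 | h2
            · exact hout y z h1 h2 hyz
            · rcases h1 with rfl | rfl | rfl | rfl <;> rcases h2 with rfl | rfl | rfl | rfl
              · exact absurd rfl hyz.ne
              · rw [Fu, Fv]; exact e1
              · exact absurd hyz (fun h => htri _ _ _ huv hvx h.symm)
              · rw [Fu, Fw]; exact e4.symm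
              · rw [Fv, Fu]; exact e1.symm
              · exact absurd rfl hyz.ne
              · rw [Fv, Fx]; exact e2
              · exact absurd hyz (fun h => htri _ _ _ hvx hxw h.symm)
              · exact absurd hyz (fun h => htri _ _ _ huv hvx h)
              · rw [Fx, Fv]; exact e2.symm
              · exact absurd rfl hyz.ne
              · rw [Fx, Fw]; exact e3
              · rw [Fw, Fu]; exact e4
              · exact absurd hyz (fun h => htri _ _ _ hvx hxw h)
              · rw [Fw, Fx]; exact e3.symm
              · exact absurd rfl hyz.ne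
      · push Not at hdeg
        obtain ⟨v, hv, hdv⟩ := hdeg
        have hlt : (X.erase v).card < n := by
          rw [← hXn]
          exact Finset.card_erase_lt_of_mem hv
        obtain ⟨f, hf1, hf2⟩ := ih _ hlt (X.erase v) rfl
        have h3 := card_nb_le (G := G) X v hv
        obtain ⟨c, hc, hcn⟩ : ∃ c ∈ L v, c ∉ (X.filter fun z => G.Adj v z).image f := by
          by_contra hcon
          push Not at hcon
          have h4 := Finset.card_le_card (show L v ⊆ _ from hcon)
          have h5 : ((X.filter fun z => G.Adj v z).image f).card ≤
              (X.filter fun z => G.Adj v z).card := Finset.card_image_le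
          have h6 := hL v
          omega
        refine ⟨Function.update f v c, ?_, ?_⟩
        · intro y
          by_cases h : y = v
          · subst h
            rw [Function.update_self]
            exact hc
          · rw [Function.update_of_ne h]
            exact hf1 y
        · intro y hy z hz hyz
          by_cases h : y = v
          · subst h
            rw [Function.update_self, Function.update_of_ne hyz.ne']
            intro heq
            exact hcn (heq ▸ Finset.mem_image_of_mem f (Finset.mem_filter.mpr ⟨hz, hyz⟩))
          · rw [Function.update_of_ne h]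
            by_cases h' : z = v
            · subst h'
              rw [Function.update_self]
              intro heq
              exact hcn (heq ▸ Finset.mem_image_of_mem f (Finset.mem_filter.mpr ⟨hy, hyz.symm⟩))
            · rw [Function.update_of_ne h']
              exact hf2 y (Finset.mem_erase.mpr ⟨h, hy⟩) z (Finset.mem_erase.mpr ⟨h', hz⟩) hyz
  obtain ⟨f, hf1, hf2⟩ := key _ Finset.univ rfl
  exact ⟨f, hf1, fun u v huv => hf2 u (Finset.mem_univ _) v (Finset.mem_univ _) huv⟩

end Q127.Surf
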