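import Pool.Agent.Q127.Surf.Defs

/-!
# The cycle space and the face space of an embedded graph over `ZMod 2`
-/

set_option autoImplicit false

namespace Q127.Surf

open SimpleGraph Module

/-- The field with two elements. -/
abbrev F2 := ZMod 2

theorem f2_add_self (a : F2) : a + a = 0 := CharTwo.add_self_eq_zero a

theorem f2_eq_of_add {a b : F2} (h : a + b = 0) : a = b := by
  have h1 : a = -b := eq_neg_of_add_eq_zero_left h
  rw [h1]
  exact CharTwo.neg_eq b

theorem f2_cases (a : F2) : a = 0 ∨ a = 1 := by
  revert a
  decide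

section tools

variable {K E F : Type*} [Field K] [AddCommGroup E] [Module K E] [AddCommGroup F] [Module K F]

theorem finrank_map_add [FiniteDimensional K E] (p : Submodule K E) (f : E →ₗ[K] F) :
    finrank K (p.map f) + finrank K (p ⊓ LinearMap.ker f : Submodule K E) = finrank K p := by
  have h1 := LinearMap.finrank_range_add_finrank_ker (f.domRestrict p)
  rw [LinearMap.range_domRestrict] at h1
  rw [← h1]
  congr 1
  have h2 : (LinearMap.ker (f.domRestrict p)).map p.subtype = p ⊓ LinearMap.ker f := by
    ext x
    simp only [Submodule.mem_map, LinearMap.mem_ker, Submodule.mem_inf]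
    constructor
    · rintro ⟨y, hy, rfl⟩
      exact ⟨y.2, hy⟩
    · rintro ⟨hx, hfx⟩
      exact ⟨⟨x, hx⟩, hfx, rfl⟩
  rw [← h2, Submodule.finrank_map_subtype_eq]

end tools

variable {V : Type} {G : SimpleGraph V}

/-- Symmetric functions on darts: functions on the edges. -/
def symS (G : SimpleGraph V) : Submodule F2 (G.Dart → F2) where
  carrier := {x | ∀ d, x d.symm = x d}
  add_mem' := by
    intro a b ha hb d
    simp only [Pi.add_apply, ha d, hb d]
  zero_mem' := by
    intro d
    rfl
  smul_mem' := by
    intro c x hx d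
    simp only [Pi.smul_apply, hx d]

/-- Functions supported in a set of darts. -/
def suppIn (A : Set G.Dart) : Submodule F2 (G.Dart → F2) where
  carrier := {x | ∀ d, d ∉ A → x d = 0}
  add_mem' := by
    intro a b ha hb d hd
    simp only [Pi.add_apply, ha d hd, hb d hd, add_zero]
  zero_mem' := by
    intro d _
    rfl
  smul_mem' := by
    intro c x hx d hd
    simp only [Pi.smul_apply, hx d hd, smul_zero]

/-- The boundary of a function on darts. -/
def bd (G : SimpleGraph V) : (G.Dart → F2) →ₗ[F2] (G.Dart → F2) where
  toFun x := fun d => x d + x d.symm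
  map_add' := by
    intro x y
    funext d
    simp only [Pi.add_apply]
    ring
  map_smul' := by
    intro c x
    funext d
    simp only [Pi.smul_apply, smul_eq_mul, RingHom.id_apply]
    ring

theorem bd_apply (x : G.Dart → F2) (d : G.Dart) : bd G x d = x d + x d.symm := rfl

theorem bd_mem_symS (x : G.Dart → F2) : bd G x ∈ symS G := by
  intro d
  rw [bd_apply, bd_apply, Dart.symm_symm, add_comm]

theorem mem_ker_bd (x : G.Dart → F2) : x ∈ LinearMap.ker (bd G) ↔ x ∈ symS G := by
  rw [LinearMap.mem_ker]
  constructor
  · intro h d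
    have := congrFun h d
    rw [bd_apply] at this
    exact (f2_eq_of_add this).symm
  · intro h
    funext d
    rw [bd_apply, h d]
    exact f2_add_self _

/-- A choice of one dart of each edge. -/
noncomputable def pos [Fintype V] (d : G.Dart) : Prop :=
  Fintype.equivFin V d.fst < Fintype.equivFin V d.snd

theorem pos_symm [Fintype V] (d : G.Dart) : pos d.symm ↔ ¬ pos d := by
  unfold pos
  have h1 : d.symm.fst = d.snd := rfl
  have h2 : d.symm.snd = d.fst := rfl
  rw [h1, h2, not_lt]
  constructor
  · exact le_of_lt
  · intro h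
    refine lt_of_le_of_ne h ?_
    intro heq
    exact d.adj.ne ((Fintype.equivFin V).injective heq).symm

open Classical in
theorem map_bd_suppIn [Fintype V] (A : Set G.Dart) (hA : ∀ d, d ∈ A → d.symm ∈ A) :
    (suppIn A).map (bd G) = symS G ⊓ suppIn A := by
  ext x
  rw [Submodule.mem_map, Submodule.mem_inf]
  constructor
  · rintro ⟨y, hy, rfl⟩
    refine ⟨bd_mem_symS y, fun d hd => ?_⟩
    rw [bd_apply, hy d hd, hy d.symm (fun h => hd (by simpa using hA _ h)), add_zero]
  · rintro ⟨hx1, hx2⟩
    refine ⟨fun d => if pos d then x d else 0, ?_, ?_⟩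
    · intro d hd
      dsimp only
      rw [hx2 d hd]
      split_ifs <;> rfl
    · funext d
      rw [bd_apply]
      by_cases h : pos d
      · rw [if_pos h, if_neg (fun h' => (pos_symm d).mp h' h), add_zero]
      · rw [if_neg h, if_pos ((pos_symm d).mpr h), zero_add]
        exact hx1 d

theorem finrank_suppIn [Fintype V] (A : Set G.Dart) : finrank F2 (suppIn A) = A.ncard := by
  classical
  have e : suppIn A ≃ₗ[F2] (A → F2) :=
    { toFun := fun x a => x.1 a.1
      map_add' := fun x y => rfl
      map_smul' := fun c x => rfl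
      invFun := fun y => ⟨fun d => if h : d ∈ A then y ⟨d, h⟩ else 0, fun d hd => dif_neg hd⟩
      left_inv := by
        intro x
        ext d
        dsimp only
        split_ifs with h
        · rfl
        · exact (x.2 d h).symm
      right_inv := by
        intro y
        funext a
        exact dif_pos a.2 }
  rw [e.finrank_eq, Module.finrank_fintype_fun_eq_card, ← Nat.card_eq_fintype_card,
    Nat.card_coe_set_eq]

theorem finrank_symS_suppIn [Fintype V] (A : Set G.Dart) (hA : ∀ d, d ∈ A → d.symm ∈ A) :
    2 * finrank F2 (symS G ⊓ suppIn A : Submodule F2 (G.Dart → F2)) = A.ncard := by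
  classical
  have h1 := finrank_map_add (suppIn A) (bd G)
  rw [map_bd_suppIn A hA, finrank_suppIn] at h1
  have h2 : (suppIn A ⊓ LinearMap.ker (bd G) : Submodule F2 (G.Dart → F2))
      = symS G ⊓ suppIn A := by
    ext x
    rw [Submodule.mem_inf, Submodule.mem_inf, mem_ker_bd]
    exact and_comm
  rw [h2] at h1
  omega

theorem finrank_symS [Fintype V] : 2 * finrank F2 (symS G) = Nat.card G.Dart := by
  classical
  have h1 := finrank_symS_suppIn (G := G) Set.univ (fun _ _ => Set.mem_univ _)
  have h2 : (symS G ⊓ suppIn Set.univ : Submodule F2 (G.Dart → F2)) = symS G := by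
    rw [inf_eq_left]
    intro x _ d hd
    exact absurd (Set.mem_univ d) hd
  rw [h2, Set.ncard_univ] at h1
  exact h1

theorem two_mul_card_edgeSet [Fintype V] : 2 * Nat.card G.edgeSet = Nat.card G.Dart := by
  classical
  have h := G.dart_card_eq_twice_card_edges
  rw [Nat.card_eq_fintype_card (α := G.edgeSet), Nat.card_eq_fintype_card (α := G.Dart), h,
    ← edgeFinset_card]

open Classical in
/-- The divergence. -/
noncomputable def div [Fintype V] (G : SimpleGraph V) : (G.Dart → F2) →ₗ[F2] (V → F2) where
  toFun x := fun v => ∑ d ∈ Finset.univ.filter (fun d : G.Dart => d.fst = v), x d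
  map_add' := by
    intro x y
    funext v
    simp only [Pi.add_apply, Finset.sum_add_distrib]
  map_smul' := by
    intro c x
    funext v
    simp only [Pi.smul_apply, smul_eq_mul, RingHom.id_apply, Finset.mul_sum]

open Classical in
theorem div_apply [Fintype V] (x : G.Dart → F2) (v : V) :
    div G x v = ∑ d ∈ Finset.univ.filter (fun d : G.Dart => d.fst = v), x d := rfl

/-- The cycle space. -/
noncomputable def cyc [Fintype V] (G : SimpleGraph V) : Submodule F2 (G.Dart → F2) :=
  symS G ⊓ LinearMap.ker (div G)

/-- Functions constant on the faces. -/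
def invS (σ : Equiv.Perm G.Dart) : Submodule F2 (G.Dart → F2) where
  carrier := {x | ∀ d, x (facePerm G σ d) = x d}
  add_mem' := by
    intro a b ha hb d
    simp only [Pi.add_apply, ha d, hb d]
  zero_mem' := by
    intro d
    rfl
  smul_mem' := by
    intro c x hx d
    simp only [Pi.smul_apply, hx d]

/-- The face space: the span of the face boundaries. -/
def bou (σ : Equiv.Perm G.Dart) : Submodule F2 (G.Dart → F2) := (invS σ).map (bd G)

theorem facePerm_symm_apply (σ : Equiv.Perm G.Dart) (d : G.Dart) :
    facePerm G σ d.symm = σ d := by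
  unfold facePerm dartSymm
  rw [Equiv.Perm.mul_apply, Function.Involutive.coe_toPerm, Dart.symm_symm]

theorem bou_le_cyc [Fintype V] {σ : Equiv.Perm G.Dart} (hσ : IsRotation G σ) :
    bou σ ≤ cyc G := by
  classical
  rintro _ ⟨t, ht, rfl⟩
  refine ⟨bd_mem_symS t, ?_⟩
  rw [SetLike.mem_coe, LinearMap.mem_ker]
  funext v
  rw [div_apply]
  simp only [bd_apply]
  rw [Finset.sum_add_distrib]
  have h1 : ∀ d : G.Dart, t d.symm = t (σ d) := by
    intro d
    rw [← facePerm_symm_apply, ht]
  simp only [h1]
  have h2 : ∑ d ∈ Finset.univ.filter (fun d : G.Dart => d.fst = v), t (σ d)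
      = ∑ d ∈ Finset.univ.filter (fun d : G.Dart => d.fst = v), t d := by
    refine Finset.sum_bij (fun d _ => σ d) ?_ ?_ ?_ ?_
    · intro d hd
      rw [Finset.mem_filter] at hd ⊢
      exact ⟨Finset.mem_univ _, (hσ.fst_eq d).trans hd.2⟩
    · intro a _ b _ h
      exact σ.injective h
    · intro d hd
      rw [Finset.mem_filter] at hd
      refine ⟨σ.symm d, ?_, by simp⟩
      rw [Finset.mem_filter]
      refine ⟨Finset.mem_univ _, ?_⟩
      have := hσ.fst_eq (σ.symm d)
      rw [Equiv.apply_symm_apply] at this
      rw [← this]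
      exact hd.2
    · intro d _
      rfl
  rw [h2]
  exact f2_add_self _

end Q127.Surf
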