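import Pool.Agent.Q127.Surf.Walks

/-!
# Regions of an induced subgraph and the counting of their boundaries
-/

set_option autoImplicit false

namespace Q127.Surf

open SimpleGraph Module

variable {V : Type} {G : SimpleGraph V}

open Classical in
theorem sum_div_eq_zero [Fintype V] {x : G.Dart → F2} (hx : x ∈ symS G) :
    ∑ v, div G x v = 0 := by
  have h1 : ∑ v, div G x v = ∑ d, x d := by
    simp only [div_apply]
    exact Finset.sum_fiberwise _ _ _
  rw [h1]
  exact sum_symm_eq_zero Finset.univ (fun d _ => Finset.mem_univ _) hx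

open Classical in
/-- The dimension of the cycle space of an induced subgraph is at least
`|E| - |V| + 1`. -/
theorem finrank_cycX_ge [Fintype V] (X : Finset V) (hX : X.Nonempty) :
    (dartsIn G X).ncard + 2 ≤ 2 * finrank F2 (cycX G X) + 2 * X.card := by
  obtain ⟨v0, hv0⟩ := hX
  have h1 := finrank_map_add (symS G ⊓ suppIn (dartsIn G X)) (div G)
  have h2 := finrank_symS_suppIn (G := G) (dartsIn G X) (fun d hd => dartsIn_symm d hd)
  have h3 : (symS G ⊓ suppIn (dartsIn G X) ⊓ LinearMap.ker (div G) :
      Submodule F2 (G.Dart → F2)) = cycX G X := by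
    unfold cycX cyc
    ext x
    simp only [Submodule.mem_inf]
    tauto
  rw [h3] at h1
  -- the image
  have h4 : finrank F2 ((symS G ⊓ suppIn (dartsIn G X)).map (div G)) ≤ X.card - 1 := by
    let R : ((symS G ⊓ suppIn (dartsIn G X)).map (div G)) →ₗ[F2] ((X.erase v0) → F2) :=
      { toFun := fun f v => f.1 v.1
        map_add' := fun x y => rfl
        map_smul' := fun c x => rfl }
    have hinj : Function.Injective R := by
      rw [injective_iff_map_eq_zero]
      rintro ⟨f, hf⟩ hRf
      apply Subtype.ext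
      change f = 0
      obtain ⟨x, hx, rfl⟩ := hf
      have hout : ∀ v, v ∉ X → div G x v = 0 := by
        intro v hv
        rw [div_apply]
        refine Finset.sum_eq_zero fun d hd => ?_
        rw [Finset.mem_filter] at hd
        exact hx.2 d (fun h => hv (hd.2 ▸ h.1))
      have hin : ∀ v, v ≠ v0 → div G x v = 0 := by
        intro v hv
        by_cases hvX : v ∈ X
        · exact congrFun hRf ⟨v, Finset.mem_erase.mpr ⟨hv, hvX⟩⟩
        · exact hout v hvX
      have hsum := sum_div_eq_zero hx.1
      rw [Finset.sum_eq_single v0 (fun v _ hv => hin v hv)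
        (fun h => absurd (Finset.mem_univ _) h)] at hsum
      funext v
      by_cases hv : v = v0
      · rw [hv]
        exact hsum
      · exact hin v hv
    have := LinearMap.finrank_le_finrank_of_injective hinj
    rw [Module.finrank_fintype_fun_eq_card, Fintype.card_coe,
      Finset.card_erase_of_mem hv0] at this
    exact this
  have h5 : 0 < X.card := Finset.card_pos.mpr ⟨v0, hv0⟩
  omega

theorem finrank_inf_ge [Fintype V] {σ : Equiv.Perm G.Dart} (hσ : IsRotation G σ) (g : ℕ)
    (hg : GenusAtMost G σ g) (X : Finset V) :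
    finrank F2 (cycX G X) ≤
      finrank F2 (cycX G X ⊓ bou σ : Submodule F2 (G.Dart → F2)) + 2 * g := by
  classical
  have h1 := finrank_cyc_le hσ g hg
  have h2 := Submodule.finrank_sup_add_finrank_inf_eq (cycX G X) (bou σ)
  have h3 : cycX G X ⊔ bou σ ≤ cyc G := sup_le inf_le_left (bou_le_cyc hσ)
  have h4 := Submodule.finrank_mono h3
  omega

/-- The equivalence relation on darts whose classes are the regions of the subgraph induced
by `X`. -/
def regSetoid (σ : Equiv.Perm G.Dart) (X : Finset V) : Setoid G.Dart :=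
  Relation.EqvGen.setoid (fun d e => e = facePerm G σ d ∨ (d ∉ dartsIn G X ∧ e = d.symm))

/-- Regions. -/
abbrev Reg (σ : Equiv.Perm G.Dart) (X : Finset V) := Quotient (regSetoid σ X)

open Classical in
/-- The indicator function of a region. -/
noncomputable def ind (σ : Equiv.Perm G.Dart) (X : Finset V) (R : Reg σ X) : G.Dart → F2 :=
  fun d => if (Quotient.mk (regSetoid σ X) d) = R then 1 else 0

theorem reg_face (σ : Equiv.Perm G.Dart) (X : Finset V) (d : G.Dart) :
    (Quotient.mk (regSetoid σ X) (facePerm G σ d)) = Quotient.mk (regSetoid σ X) d := by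
  have h : (regSetoid σ X) d (facePerm G σ d) := Relation.EqvGen.rel _ _ (Or.inl rfl)
  exact (Quotient.sound h).symm

theorem reg_symm (σ : Equiv.Perm G.Dart) (X : Finset V) (d : G.Dart) (hd : d ∉ dartsIn G X) :
    (Quotient.mk (regSetoid σ X) d.symm) = Quotient.mk (regSetoid σ X) d := by
  have h : (regSetoid σ X) d d.symm := Relation.EqvGen.rel _ _ (Or.inr ⟨hd, rfl⟩)
  exact (Quotient.sound h).symm

theorem ind_mem_invS (σ : Equiv.Perm G.Dart) (X : Finset V) (R : Reg σ X) :
    ind σ X R ∈ invS σ := by
  intro d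
  unfold ind
  rw [reg_face]

/-- The boundary of a region. -/
noncomputable def zR (σ : Equiv.Perm G.Dart) (X : Finset V) (R : Reg σ X) : G.Dart → F2 :=
  bd G (ind σ X R)

theorem zR_mem_bou (σ : Equiv.Perm G.Dart) (X : Finset V) (R : Reg σ X) : zR σ X R ∈ bou σ :=
  ⟨_, ind_mem_invS σ X R, rfl⟩

theorem zR_mem_cycX [Fintype V] {σ : Equiv.Perm G.Dart} (hσ : IsRotation G σ) (X : Finset V)
    (R : Reg σ X) : zR σ X R ∈ cycX G X := by
  refine ⟨bou_le_cyc hσ (zR_mem_bou σ X R), ?_⟩
  intro d hd
  unfold zR
  rw [bd_apply]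
  unfold ind
  rw [reg_symm σ X d hd]
  exact f2_add_self _

theorem zR_ne_zero (σ : Equiv.Perm G.Dart) (X : Finset V) (R : Reg σ X) (d : G.Dart)
    (h : zR σ X R d ≠ 0) :
    R = Quotient.mk (regSetoid σ X) d ∨ R = Quotient.mk (regSetoid σ X) d.symm := by
  by_contra hcon
  push Not at hcon
  apply h
  unfold zR
  rw [bd_apply]
  unfold ind
  rw [if_neg (fun h' => hcon.1 h'.symm), if_neg (fun h' => hcon.2 h'.symm), add_zero]

theorem const_on_region (σ : Equiv.Perm G.Dart) (X : Finset V) {t : G.Dart → F2}
    (h1 : t ∈ invS σ) (h2 : ∀ d, d ∉ dartsIn G X → t d.symm = t d) {d e : G.Dart}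
    (h : Quotient.mk (regSetoid σ X) d = Quotient.mk (regSetoid σ X) e) : t d = t e := by
  have h3 : Relation.EqvGen _ d e := Quotient.exact h
  induction h3 with
  | rel x y hxy =>
    rcases hxy with rfl | ⟨hx, rfl⟩
    · exact (h1 x).symm
    · exact (h2 x hx).symm
  | refl x => rfl
  | symm x y _ ih => exact (ih (Quotient.sound (by assumption))).symm
  | trans x y z hxy hyz ih1 ih2 =>
    exact (ih1 (Quotient.sound hxy)).trans (ih2 (Quotient.sound hyz))

open Classical in
theorem inf_le_span [Fintype V] {σ : Equiv.Perm G.Dart} (X : Finset V) :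
    (cycX G X ⊓ bou σ : Submodule F2 (G.Dart → F2)) ≤
      Submodule.span F2 (Set.range (zR σ X)) := by
  rintro y ⟨hy1, t, ht, rfl⟩
  have h2 : ∀ d, d ∉ dartsIn G X → t d.symm = t d := by
    intro d hd
    have := hy1.2 d hd
    rw [bd_apply] at this
    exact (f2_eq_of_add this).symm
  have h3 : t = ∑ R : Reg σ X, (t R.out) • ind σ X R := by
    funext d
    rw [Finset.sum_apply, Finset.sum_eq_single (Quotient.mk (regSetoid σ X) d)]
    · rw [Pi.smul_apply]
      unfold ind
      rw [if_pos rfl, smul_eq_mul, mul_one]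
      exact const_on_region σ X ht h2 (Quotient.out_eq _).symm
    · intro R _ hR
      rw [Pi.smul_apply]
      unfold ind
      rw [if_neg (fun h => hR h.symm), smul_zero]
    · intro h
      exact absurd (Finset.mem_univ _) h
  rw [h3, map_sum]
  refine Submodule.sum_mem _ fun R _ => ?_
  rw [map_smul]
  exact Submodule.smul_mem _ _ (Submodule.subset_span ⟨R, rfl⟩)

open Classical in
theorem sum_zR [Fintype V] (σ : Equiv.Perm G.Dart) (X : Finset V) :
    ∑ R : Reg σ X, zR σ X R = 0 := by
  unfold zR
  rw [← map_sum]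
  have h1 : ∑ R : Reg σ X, ind σ X R = fun _ => 1 := by
    funext d
    rw [Finset.sum_apply, Finset.sum_eq_single (Quotient.mk (regSetoid σ X) d)]
    · unfold ind
      rw [if_pos rfl]
    · intro R _ hR
      unfold ind
      rw [if_neg (fun h => hR h.symm)]
    · intro h
      exact absurd (Finset.mem_univ _) h
  rw [h1]
  funext d
  rw [bd_apply]
  exact f2_add_self _

open Classical in
/-- The regions with nonzero boundary. -/
noncomputable def reg1 [Fintype V] (σ : Equiv.Perm G.Dart) (X : Finset V) : Finset (Reg σ X) :=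
  Finset.univ.filter fun R => zR σ X R ≠ 0

open Classical in
theorem finrank_inf_lt [Fintype V] {σ : Equiv.Perm G.Dart} (X : Finset V)
    (hpos : 0 < finrank F2 (cycX G X ⊓ bou σ : Submodule F2 (G.Dart → F2))) :
    finrank F2 (cycX G X ⊓ bou σ : Submodule F2 (G.Dart → F2)) + 1 ≤ (reg1 σ X).card := by
  have h1 := inf_le_span (σ := σ) X
  have hne : (reg1 σ X).Nonempty := by
    rw [Finset.nonempty_iff_ne_empty]
    intro hempty
    have h2 : Submodule.span F2 (Set.range (zR σ X)) = ⊥ := by
      rw [Submodule.span_eq_bot]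
      rintro _ ⟨R, rfl⟩
      by_contra hR
      have : R ∈ reg1 σ X := Finset.mem_filter.mpr ⟨Finset.mem_univ _, hR⟩
      rw [hempty] at this
      exact absurd this (Finset.notMem_empty _)
    rw [h2, le_bot_iff] at h1
    rw [h1, finrank_bot] at hpos
    exact absurd hpos (lt_irrefl _)
  obtain ⟨R0, hR0⟩ := hne
  set S : Finset (G.Dart → F2) := ((reg1 σ X).erase R0).image (zR σ X) with hS
  have h2 : Submodule.span F2 (Set.range (zR σ X)) ≤
      Submodule.span F2 (S : Set (G.Dart → F2)) := by
    rw [Submodule.span_le]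
    have hbase : ∀ R, R ≠ R0 → zR σ X R ∈ Submodule.span F2 (S : Set (G.Dart → F2)) := by
      intro R hR
      by_cases h0 : zR σ X R = 0
      · rw [h0]
        exact Submodule.zero_mem _
      · refine Submodule.subset_span ?_
        rw [Finset.mem_coe, hS]
        exact Finset.mem_image_of_mem _ (Finset.mem_erase.mpr
          ⟨hR, Finset.mem_filter.mpr ⟨Finset.mem_univ _, h0⟩⟩)
    rintro _ ⟨R, rfl⟩
    by_cases hR : R = R0
    · have h3 := sum_zR σ X
      rw [← Finset.add_sum_erase _ _ (Finset.mem_univ R0)] at h3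
      have h4 : zR σ X R0 = ∑ R ∈ Finset.univ.erase R0, zR σ X R := by
        have h5 := add_self_fun (∑ R ∈ Finset.univ.erase R0, zR σ X R)
        calc zR σ X R0 = zR σ X R0 + (∑ R ∈ Finset.univ.erase R0, zR σ X R +
              ∑ R ∈ Finset.univ.erase R0, zR σ X R) := by rw [h5, add_zero]
          _ = (zR σ X R0 + ∑ R ∈ Finset.univ.erase R0, zR σ X R) +
              ∑ R ∈ Finset.univ.erase R0, zR σ X R := by rw [add_assoc]
          _ = _ := by rw [h3, zero_add]
      rw [hR, h4]
      refine Submodule.sum_mem _ fun R' hR' => ?_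
      exact hbase R' (Finset.ne_of_mem_erase hR')
    · exact hbase R hR
  have h3 := Submodule.finrank_mono (h1.trans h2)
  have h4 := finrank_span_finset_le_card (R := F2) S
  have h5 : S.card ≤ (reg1 σ X).card - 1 := by
    refine Finset.card_image_le.trans ?_
    rw [Finset.card_erase_of_mem hR0]
  have h6 : 0 < (reg1 σ X).card := Finset.card_pos.mpr ⟨R0, hR0⟩
  have h7 : finrank F2 (Submodule.span F2 (S : Set (G.Dart → F2))) ≤ S.card := h4
  omega

open Classical in
/-- The support of a function on darts. -/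
noncomputable def spt [Fintype V] (x : G.Dart → F2) : Finset G.Dart :=
  Finset.univ.filter fun d => x d ≠ 0

theorem mem_spt [Fintype V] {x : G.Dart → F2} {d : G.Dart} : d ∈ spt x ↔ x d ≠ 0 := by
  classical
  unfold spt
  rw [Finset.mem_filter]
  exact ⟨fun h => h.2, fun h => ⟨Finset.mem_univ _, h⟩⟩

open Classical in
theorem card_reg_at [Fintype V] (σ : Equiv.Perm G.Dart) (X : Finset V) (d : G.Dart) :
    ((reg1 σ X).filter fun R => zR σ X R d ≠ 0).card ≤ 2 := by
  have h1 : ((reg1 σ X).filter fun R => zR σ X R d ≠ 0) ⊆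
      {Quotient.mk (regSetoid σ X) d, Quotient.mk (regSetoid σ X) d.symm} := by
    intro R hR
    rw [Finset.mem_filter] at hR
    rw [Finset.mem_insert, Finset.mem_singleton]
    exact zR_ne_zero σ X R d hR.2
  exact (Finset.card_le_card h1).trans Finset.card_le_two

open Classical in
theorem sum_card_spt [Fintype V] {σ : Equiv.Perm G.Dart} (hσ : IsRotation G σ) (X : Finset V) :
    ∑ R ∈ reg1 σ X, (spt (zR σ X R)).card ≤ 2 * (dartsIn G X).ncard := by
  have h1 : ∀ R ∈ reg1 σ X, (spt (zR σ X R)).card
      = ∑ d ∈ Finset.univ.filter (fun d => d ∈ dartsIn G X),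
        if zR σ X R d ≠ 0 then 1 else 0 := by
    intro R _
    rw [← Finset.sum_filter, Finset.sum_const, smul_eq_mul, mul_one]
    congr 1
    ext d
    rw [mem_spt, Finset.mem_filter, Finset.mem_filter]
    constructor
    · intro h
      refine ⟨⟨Finset.mem_univ _, ?_⟩, h⟩
      by_contra hcon
      exact h ((zR_mem_cycX hσ X R).2 d hcon)
    · intro h
      exact h.2
  rw [Finset.sum_congr rfl h1, Finset.sum_comm]
  have h2 : ∀ d ∈ Finset.univ.filter (fun d => d ∈ dartsIn G X),
      (∑ R ∈ reg1 σ X, if zR σ X R d ≠ 0 then 1 else 0) ≤ 2 := by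
    intro d _
    rw [← Finset.sum_filter, Finset.sum_const, smul_eq_mul, mul_one]
    exact card_reg_at σ X d
  refine (Finset.sum_le_sum h2).trans ?_
  rw [Finset.sum_const, smul_eq_mul, mul_comm]
  refine Nat.mul_le_mul_left _ (le_of_eq ?_)
  rw [← Set.ncard_coe_finset]
  congr 1
  ext d
  simp

end Q127.Surf
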