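import Pool.Agent.Q127.Surf.Euler

/-!
# Homology classes of walks; parity; the cycle space of a small subgraph
-/

set_option autoImplicit false

namespace Q127.Surf

open SimpleGraph Module

variable {V : Type} {G : SimpleGraph V}

open Classical in
/-- The class of a walk in the space of functions on edges. -/
noncomputable def cls {u v : V} (p : G.Walk u v) : G.Dart → F2 :=
  (p.darts.map fun d => bd G (Pi.single d 1)).sum

theorem cls_nil {u : V} : cls (Walk.nil : G.Walk u u) = 0 := rfl

open Classical in
theorem cls_cons {u v w : V} (h : G.Adj u v) (p : G.Walk v w) :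
    cls (Walk.cons h p) = bd G (Pi.single ⟨(u, v), h⟩ 1) + cls p := by
  unfold cls
  rw [Walk.darts_cons, List.map_cons, List.sum_cons]

theorem cls_append {u v w : V} (p : G.Walk u v) (q : G.Walk v w) :
    cls (p.append q) = cls p + cls q := by
  unfold cls
  rw [Walk.darts_append, List.map_append, List.sum_append]

theorem add_self_fun {α : Type*} (x : α → F2) : x + x = 0 := by
  funext d
  exact f2_add_self _

open Classical in
theorem sum_single_mem_invS (σ : Equiv.Perm G.Dart) (d : G.Dart) (k : ℕ)
    (hk : (facePerm G σ ^ k) d = d) :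
    ∑ i ∈ Finset.range k, (Pi.single ((facePerm G σ ^ i) d) 1 : G.Dart → F2) ∈ invS σ := by
  intro e
  set f := facePerm G σ with hf
  have h1 : ∀ i : ℕ, (Pi.single ((f ^ (i + 1)) d) 1 : G.Dart → F2) (f e)
      = (Pi.single ((f ^ i) d) 1 : G.Dart → F2) e := by
    intro i
    rw [Pi.single_apply, Pi.single_apply, pow_succ', Equiv.Perm.mul_apply]
    by_cases h : e = (f ^ i) d
    · rw [if_pos h, if_pos (by rw [h])]
    · rw [if_neg h, if_neg (fun h' => h (f.injective h'))]
  have h2 : ∑ i ∈ Finset.range k, (Pi.single ((f ^ i) d) 1 : G.Dart → F2) (f e)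
      = ∑ i ∈ Finset.range k, (Pi.single ((f ^ i) d) 1 : G.Dart → F2) e := by
    rw [← Finset.sum_congr rfl (fun i _ => h1 i)]
    have h3 := Finset.sum_range_succ (fun i => (Pi.single ((f ^ i) d) 1 : G.Dart → F2) (f e)) k
    have h4 := Finset.sum_range_succ' (fun i => (Pi.single ((f ^ i) d) 1 : G.Dart → F2) (f e)) k
    rw [h3] at h4
    simp only [hk, pow_zero, Equiv.Perm.one_apply] at h4
    exact add_right_cancel h4
  rw [Finset.sum_apply, Finset.sum_apply]
  exact h2

theorem homotopic_cls {σ : Equiv.Perm G.Dart} {u v : V} {p q : G.Walk u v}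
    (h : Homotopic G σ p q) : cls p + cls q ∈ bou σ := by
  classical
  induction h with
  | refl p =>
    rw [add_self_fun]
    exact Submodule.zero_mem _
  | symm _ ih =>
    rw [add_comm]
    exact ih
  | @trans u v p q r _ _ ih1 ih2 =>
    have : cls p + cls r = (cls p + cls q) + (cls q + cls r) := by
      have h1 := add_self_fun (cls q)
      calc cls p + cls r = cls p + (cls q + cls q) + cls r := by rw [h1, add_zero]
        _ = _ := by abel
    rw [this]
    exact Submodule.add_mem _ ih1 ih2
  | @append u v w p p' q q' _ _ ih1 ih2 =>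
    rw [cls_append, cls_append]
    have : cls p + cls q + (cls p' + cls q') = (cls p + cls p') + (cls q + cls q') := by abel
    rw [this]
    exact Submodule.add_mem _ ih1 ih2
  | @spur u v h =>
    rw [cls_cons, cls_cons, cls_nil, add_zero, add_zero, bd_single, bd_single]
    have h1 : (⟨(v, u), h.symm⟩ : G.Dart) = (⟨(u, v), h⟩ : G.Dart).symm := rfl
    rw [h1, Dart.symm_symm, add_comm (Pi.single (⟨(u, v), h⟩ : G.Dart).symm 1), add_self_fun]
    exact Submodule.zero_mem _
  | @face u p d k hk hp =>
    rw [cls_nil, add_zero]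
    refine ⟨_, sum_single_mem_invS σ d k hk, ?_⟩
    unfold cls
    rw [hp, map_sum, List.map_map]
    have h1 : ∀ (m : ℕ) (F : ℕ → (G.Dart → F2)),
        ∑ i ∈ Finset.range m, F i = ((List.range m).map F).sum := by
      intro m F
      rfl
    rw [h1]
    rfl

open Classical in
theorem bd_single_apply (d e : G.Dart) :
    bd G (Pi.single d 1) e = if e.edge = d.edge then 1 else 0 := by
  rw [bd_single, Pi.add_apply, Pi.single_apply, Pi.single_apply]
  by_cases h : e.edge = d.edge
  · rw [if_pos h]
    rcases (dart_edge_eq_iff e d).mp h with h1 | h1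
    · rw [if_pos h1, if_neg, add_zero]
      intro h2
      exact d.symm_ne (h2.symm.trans h1)
    · rw [if_neg, if_pos h1, zero_add]
      intro h2
      exact d.symm_ne (h1.symm.trans h2)
  · rw [if_neg h, if_neg, if_neg, add_zero]
    · intro h1
      exact h (by rw [h1, Dart.edge_symm])
    · intro h1
      exact h (by rw [h1])

open Classical in
theorem cls_apply {u v : V} (p : G.Walk u v) (d : G.Dart) :
    cls p d = ((p.edges.count d.edge : ℕ) : F2) := by
  induction p with
  | nil => rfl
  | @cons a b c h p ih =>
    rw [cls_cons, Pi.add_apply, ih, bd_single_apply, Walk.edges_cons, List.count_cons]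
    have h1 : (⟨(a, b), h⟩ : G.Dart).edge = s(a, b) := rfl
    rw [h1]
    by_cases h2 : d.edge = s(a, b)
    · rw [if_pos h2, h2]
      simp [add_comm]
    · have h3 : (s(a, b) == d.edge) = false := by
        rw [beq_eq_false_iff_ne]
        exact fun h4 => h2 h4.symm
      rw [if_neg h2, h3]
      simp

open Classical in
/-- The parity of the number of edges in a symmetric function. -/
noncomputable def par [Fintype V] (x : G.Dart → F2) : F2 :=
  ∑ d ∈ Finset.univ.filter (fun d : G.Dart => pos d), x d

open Classical in
theorem par_bd [Fintype V] (t : G.Dart → F2) : par (bd G t) = ∑ d, t d := by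
  unfold par
  simp only [bd_apply]
  rw [Finset.sum_add_distrib]
  have h1 : ∑ d ∈ Finset.univ.filter (fun d : G.Dart => pos d), t d.symm
      = ∑ d ∈ Finset.univ.filter (fun d : G.Dart => ¬ pos d), t d := by
    refine Finset.sum_bij (fun d _ => d.symm) ?_ ?_ ?_ ?_
    · intro d hd
      rw [Finset.mem_filter] at hd ⊢
      exact ⟨Finset.mem_univ _, fun h => (pos_symm d).mp h hd.2⟩
    · intro a _ b _ h
      have := congrArg Dart.symm h
      rwa [Dart.symm_symm, Dart.symm_symm] at this
    · intro d hd
      rw [Finset.mem_filter] at hd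
      refine ⟨d.symm, ?_, Dart.symm_symm d⟩
      rw [Finset.mem_filter]
      exact ⟨Finset.mem_univ _, (pos_symm d).mpr hd.2⟩
    · intro d _
      rfl
  rw [h1]
  exact Finset.sum_filter_add_sum_filter_not _ _ _

open Classical in
theorem par_cls [Fintype V] {u v : V} (p : G.Walk u v) : par (cls p) = (p.length : F2) := by
  induction p with
  | nil =>
    rw [cls_nil]
    unfold par
    simp
  | @cons a b c h p ih =>
    have h1 : par (bd G (Pi.single ⟨(a, b), h⟩ 1) + cls p)
        = par (bd G (Pi.single ⟨(a, b), h⟩ 1)) + par (cls p) := by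
      unfold par
      simp only [Pi.add_apply]
      rw [Finset.sum_add_distrib]
    rw [cls_cons, h1, ih, par_bd, Walk.length_cons]
    have h2 : ∑ d : G.Dart, (Pi.single (⟨(a, b), h⟩ : G.Dart) 1 : G.Dart → F2) d = 1 := by
      rw [Finset.sum_eq_single (⟨(a, b), h⟩ : G.Dart)]
      · exact Pi.single_eq_same _ _
      · intro e _ he
        exact Pi.single_eq_of_ne he _
      · intro h'
        exact absurd (Finset.mem_univ _) h'
    rw [h2]
    push_cast
    ring

open Classical in
theorem sum_inv_eq_zero [Fintype V] {σ : Equiv.Perm G.Dart} (heven : EvenFaced G σ)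
    {t : G.Dart → F2} (ht : t ∈ invS σ) : ∑ d, t d = 0 := by
  set f := facePerm G σ with hf
  -- sum over the orbits
  let q : G.Dart → Quotient (Equiv.Perm.SameCycle.setoid f) := fun d => Quotient.mk _ d
  rw [← Finset.sum_fiberwise (s := Finset.univ) (g := q) (f := t)]
  refine Finset.sum_eq_zero fun Q _ => ?_
  obtain ⟨d0, hd0⟩ := Quotient.exists_rep Q
  have h1 : ∀ d ∈ Finset.univ.filter (fun d => q d = Q), t d = t d0 := by
    intro d hd
    rw [Finset.mem_filter] at hd
    have h2 : q d = q d0 := hd.2.trans hd0.symm
    have h3 : f.SameCycle d d0 := Quotient.exact h2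
    exact inv_sameCycle f t ht h3
  rw [Finset.sum_congr rfl h1, Finset.sum_const, nsmul_eq_mul]
  have h2 : Even (Finset.univ.filter (fun d => q d = Q)).card := by
    have h3 := heven d0
    rw [← hf] at h3
    have h4 : Function.minimalPeriod f d0
        = Fintype.card (MulAction.orbit (Subgroup.zpowers f) d0) :=
      MulAction.minimalPeriod_eq_card f d0
    have h5 : Fintype.card (MulAction.orbit (Subgroup.zpowers f) d0)
        = (Finset.univ.filter (fun d => q d = Q)).card := by
      rw [← Set.toFinset_card]
      congr 1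
      ext d
      rw [Set.mem_toFinset, Finset.mem_filter, MulAction.mem_orbit_iff]
      constructor
      · rintro ⟨⟨g, i, hg⟩, rfl⟩
        refine ⟨Finset.mem_univ _, ?_⟩
        rw [← hd0]
        refine Quotient.sound ?_
        change f.SameCycle (g d0) d0
        have hg' : f ^ i = g := hg
        rw [← hg']
        exact Equiv.Perm.sameCycle_zpow_left.mpr (Equiv.Perm.SameCycle.refl f d0)
      · rintro ⟨_, h6⟩
        have h7 : q d0 = q d := hd0.trans h6.symm
        obtain ⟨i, hi⟩ : f.SameCycle d0 d := Quotient.exact h7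
        exact ⟨⟨f ^ i, i, rfl⟩, hi⟩
    rw [← h5, ← h4]
    exact h3
  obtain ⟨m, hm⟩ := h2
  rw [hm]
  push_cast
  rw [f2_add_self, zero_mul]

theorem even_length_of_cls_mem [Fintype V] {σ : Equiv.Perm G.Dart} (heven : EvenFaced G σ)
    {u v : V} (p : G.Walk u v) (h : cls p ∈ bou σ) : Even p.length := by
  classical
  obtain ⟨t, ht, hb⟩ := h
  have h1 := par_cls p
  rw [← hb, par_bd, sum_inv_eq_zero heven ht] at h1
  have h2 : ((p.length : ℕ) : ZMod 2) = 0 := h1.symm
  rwa [ZMod.natCast_eq_zero_iff_even] at h2

/-- Darts inside a set of vertices. -/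
def dartsIn (G : SimpleGraph V) (X : Finset V) : Set G.Dart := {d | d.fst ∈ X ∧ d.snd ∈ X}

theorem dartsIn_symm {X : Finset V} (d : G.Dart) (h : d ∈ dartsIn G X) :
    d.symm ∈ dartsIn G X := ⟨h.2, h.1⟩

/-- The cycle space of the subgraph induced by `X`. -/
noncomputable def cycX [Fintype V] (G : SimpleGraph V) (X : Finset V) :
    Submodule F2 (G.Dart → F2) := cyc G ⊓ suppIn (dartsIn G X)

open Classical in
theorem sum_symm_eq_zero [Fintype V] (A : Finset G.Dart) (hA : ∀ d ∈ A, d.symm ∈ A)
    {x : G.Dart → F2} (hx : x ∈ symS G) : ∑ d ∈ A, x d = 0 := by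
  refine Finset.sum_involution (fun d _ => d.symm) ?_ ?_ ?_ ?_
  · intro d _
    rw [hx d]
    exact f2_add_self _
  · intro d _ _
    exact d.symm_ne
  · intro d hd
    exact hA d hd
  · intro d _
    exact Dart.symm_symm d

open Classical in
/-- An edge in the support of an element of the cycle space lies on a cycle in the support. -/
theorem exists_cycle [Fintype V] {x : G.Dart → F2} (hx : x ∈ cyc G) (d0 : G.Dart)
    (h0 : x d0 ≠ 0) : ∃ (u : V) (p : G.Walk u u), p.IsCycle ∧ d0.edge ∈ p.edges ∧
      ∀ d ∈ p.darts, x d ≠ 0 := by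
  have hsym := hx.1
  let S : SimpleGraph V :=
    { Adj := fun u v => ∃ h : G.Adj u v, x ⟨(u, v), h⟩ ≠ 0
      symm := ⟨by
        rintro u v ⟨h, hxd⟩
        refine ⟨h.symm, ?_⟩
        have := hsym ⟨(u, v), h⟩
        change x ⟨(v, u), h.symm⟩ = _ at this
        rw [this]
        exact hxd⟩
      loopless := ⟨by
        rintro u ⟨h, _⟩
        exact G.irrefl h⟩ }
  have hle : S ≤ G := fun u v h => h.1
  have he0 : s(d0.fst, d0.snd) ∈ S.edgeSet := ⟨d0.adj, h0⟩
  have hnb : ¬ S.IsBridge s(d0.fst, d0.snd) := by
    intro hb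
    rw [isBridge_iff] at hb
    set S' := S.deleteEdges {s(d0.fst, d0.snd)} with hS'
    let A : Finset G.Dart := Finset.univ.filter (fun d => S'.Reachable d0.fst d.fst)
    have h1 : ∑ d ∈ A, x d = 0 := by
      have h2 : ∑ d ∈ A, x d = ∑ v ∈ Finset.univ.filter (fun v => S'.Reachable d0.fst v),
          div G x v := by
        simp only [div_apply]
        rw [Finset.sum_sigma']
        refine Finset.sum_bij' (fun d _ => (⟨d.fst, d⟩ : (_ : V) × G.Dart)) (fun y _ => y.2)
          ?_ ?_ ?_ ?_ ?_
        · intro d hd
          rw [Finset.mem_filter] at hd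
          rw [Finset.mem_sigma, Finset.mem_filter, Finset.mem_filter]
          exact ⟨⟨Finset.mem_univ _, hd.2⟩, Finset.mem_univ _, rfl⟩
        · rintro ⟨v, d⟩ hd
          rw [Finset.mem_sigma, Finset.mem_filter, Finset.mem_filter] at hd
          rw [Finset.mem_filter]
          refine ⟨Finset.mem_univ _, ?_⟩
          rw [hd.2.2]
          exact hd.1.2
        · intro d _
          rfl
        · rintro ⟨v, d⟩ hd
          rw [Finset.mem_sigma, Finset.mem_filter, Finset.mem_filter] at hd
          have : d.fst = v := hd.2.2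
          subst this
          rfl
        · intro d _
          rfl
      rw [h2]
      refine Finset.sum_eq_zero fun v _ => ?_
      have := hx.2
      rw [SetLike.mem_coe, LinearMap.mem_ker] at this
      rw [this]
      rfl
    -- split according to the other end
    have h2 := Finset.sum_filter_add_sum_filter_not A (fun d => S'.Reachable d0.fst d.snd) x
    have h3 : ∑ d ∈ A.filter (fun d => S'.Reachable d0.fst d.snd), x d = 0 := by
      refine sum_symm_eq_zero _ ?_ hsym
      intro d hd
      rw [Finset.mem_filter, Finset.mem_filter] at hd ⊢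
      exact ⟨⟨Finset.mem_univ _, hd.2⟩, hd.1.2⟩
    have h4 : ∑ d ∈ A.filter (fun d => ¬ S'.Reachable d0.fst d.snd), x d = x d0 := by
      rw [Finset.sum_eq_single d0]
      · intro d hd hne
        by_contra hxd
        rw [Finset.mem_filter, Finset.mem_filter] at hd
        have hadj : S.Adj d.fst d.snd := ⟨d.adj, hxd⟩
        by_cases he : s(d.fst, d.snd) = s(d0.fst, d0.snd)
        · rw [Sym2.eq_iff] at he
          rcases he with ⟨e1, e2⟩ | ⟨e1, e2⟩
          · apply hne
            ext
            · exact e1
            · exact e2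
          · apply hd.2
            rw [e2]
        · apply hd.2
          refine hd.1.2.trans (SimpleGraph.Adj.reachable ?_)
          rw [hS', deleteEdges_adj]
          exact ⟨hadj, fun h => he h⟩
      · intro hmem
        exfalso
        apply hmem
        rw [Finset.mem_filter, Finset.mem_filter]
        exact ⟨⟨Finset.mem_univ _, Reachable.refl _⟩, hb⟩
    rw [h3, h4, h1, zero_add] at h2
    exact h0 h2
  rw [isBridge_iff_forall_cycle_notMem he0] at hnb
  push Not at hnb
  obtain ⟨u, p, hp, hmem⟩ := hnb
  refine ⟨u, p.mapLe hle, hp.mapLe hle, ?_, ?_⟩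
  · rw [Walk.edges_mapLe_eq_edges]
    exact hmem
  · intro d hd
    have h1 : d.edge ∈ (p.mapLe hle).edges := List.mem_map_of_mem hd
    rw [Walk.edges_mapLe_eq_edges] at h1
    have h2 : s(d.fst, d.snd) ∈ S.edgeSet := p.edges_subset_edgeSet h1
    obtain ⟨h3, h4⟩ := h2
    exact h4

open Classical in
theorem cycX_le_bou [Fintype V] {σ : Equiv.Perm G.Dart} (hσ : IsRotation G σ) (X : Finset V)
    (h : ∀ (u : V) (p : G.Walk u u), p.IsCycle → p.length ≤ X.card → cls p ∈ bou σ) :
    cycX G X ≤ bou σ := by
  intro x hx
  induction hn : (Finset.univ.filter (fun d => x d ≠ 0)).card using Nat.strong_induction_on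
    generalizing x with
  | _ n ih =>
    by_cases h0 : x = 0
    · rw [h0]
      exact Submodule.zero_mem _
    obtain ⟨d0, hd0⟩ : ∃ d, x d ≠ 0 := by
      by_contra hcon
      push Not at hcon
      exact h0 (funext hcon)
    obtain ⟨u, p, hp, hp0, hpx⟩ := exists_cycle hx.1 d0 hd0
    have hlen : p.length ≤ X.card := by
      have h1 : p.support.tail.length = p.length := by
        rw [List.length_tail, Walk.length_support, Nat.add_sub_cancel]
      rw [← h1]
      have h2 : p.support.tail.toFinset ⊆ X := by
        intro v hv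
        rw [List.mem_toFinset] at hv
        rw [← Walk.map_snd_darts] at hv
        rw [List.mem_map] at hv
        obtain ⟨d, hd, rfl⟩ := hv
        by_contra hcon
        exact hpx d hd (hx.2 d (fun h => hcon h.2))
      have h3 := Finset.card_le_card h2
      rwa [List.toFinset_card_of_nodup hp.support_nodup] at h3
    have hcls := h u p hp hlen
    have hclscyc : cls p ∈ cyc G := bou_le_cyc hσ hcls
    have hval : ∀ d : G.Dart, cls p d ≠ 0 → x d ≠ 0 := by
      intro d hd
      rw [cls_apply] at hd
      have h1 : d.edge ∈ p.edges := by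
        by_contra hcon
        rw [List.count_eq_zero_of_not_mem hcon] at hd
        exact hd rfl
      obtain ⟨e, he, he2⟩ := List.mem_map.mp h1
      have h2 := hpx e he
      rcases (dart_edge_eq_iff e d).mp he2 with h3 | h3
      · rwa [h3] at h2
      · rw [h3] at h2
        have := hx.1.1 d
        rwa [this] at h2
    have hone : cls p d0 = 1 := by
      rw [cls_apply, List.count_eq_one_of_mem hp.1.1.1 hp0]
      rfl
    have hsum : x + cls p ∈ cycX G X := by
      refine ⟨Submodule.add_mem _ hx.1 hclscyc, ?_⟩
      intro d hd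
      rw [Pi.add_apply, hx.2 d hd]
      by_contra hcon
      rw [zero_add] at hcon
      exact hval d hcon (hx.2 d hd)
    have hlt : (Finset.univ.filter (fun d => (x + cls p) d ≠ 0)).card < n := by
      rw [← hn]
      refine Finset.card_lt_card ⟨?_, ?_⟩
      · intro d hd
        rw [Finset.mem_filter] at hd ⊢
        refine ⟨Finset.mem_univ _, ?_⟩
        intro hxd
        apply hd.2
        rw [Pi.add_apply, hxd, zero_add]
        by_contra hcon
        exact hval d hcon hxd
      · intro hsub
        have h1 : d0 ∈ Finset.univ.filter (fun d => x d ≠ 0) :=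
          Finset.mem_filter.mpr ⟨Finset.mem_univ _, hd0⟩
        have h2 := hsub h1
        rw [Finset.mem_filter, Pi.add_apply, hone, (f2_cases (x d0)).resolve_left hd0] at h2
        exact h2.2 (f2_add_self _)
    have h3 := ih _ hlt hsum rfl
    have h4 : x = (x + cls p) + cls p := by
      rw [add_assoc, add_self_fun, add_zero]
    rw [h4]
    exact Submodule.add_mem _ h3 hcls

end Q127.Surf
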